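import Pool.Agent.MP_20d318_ag.AM.K10

/-! The induction on the number of factors, with the invariants used by the nef cones only. -/

set_option autoImplicit false
set_option linter.unusedSectionVars false
set_option linter.style.haveILetI false

open AlgebraicGeometry CategoryTheory

namespace Pool.Agent.MP_20d318_ag.AC

open Pool.Agent.MP_fd6584_ag Pool.Agent.MP_fd6584_ag.Pj Pool.Agent.CBk
open Pool.Agent.MP_fd6584_ag.AG hiding deg_inv deg_congr deg_of_unit deg_mul deg_prod deg_zpow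
  deg_eq_zero deg_nonneg deg_div deg_pow
open Pool.Agent.MVg (Two gm)
open Pool.Agent.MP_20d318_ag.CH (Lv Ok MW cb Vol Tw lv0)
open Pool.Agent.MP_20d318_ag.KK Pool.Agent.MP_20d318_ag.AM
open IntermediateField (adjoin)

/-- The invariants of a level. -/
structure Iw {k M Λ κ : Type} {n : ℕ} [Field k] [Field M] [Algebra k M] (L : Lv k M Λ κ n) :
    Prop where
  fd : FiniteDimensional ℝ (AG.N1 L.Y)
  md : MD L

variable {k M M' K Λ Λ' κ κ' : Type} {n n' : ℕ} [Field k] [NeZero (2 : k)] [IsAlgClosed k] [Field M]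
  [Field M'] [Field K] [Algebra k M] [Algebra k M'] [Algebra k K] [Fintype κ]
  [Fintype κ'] {L : Lv k M Λ κ n} {L' : Lv k M' Λ' κ' n'} {ι : M →ₐ[k] K} {ι' : M' →ₐ[k] K} {v : K}
  {e : ℕ}

theorem step (h : Geo L L' ι ι' v e (XX L L' ι ι' v e)) (two : Two κ') (z : Hz ι ι' v)
    (a : Iw L) (b : Iw L') : Iw (nx L L' ι ι' v e) := by
  have c1 := mods.cura _ _ _ _ _ _ _ _ _ _ L L' ι ι' v e _ h
  have c2 := mods.cura _ _ _ _ _ _ _ _ _ _ L' L ι' ι _ e _ h.symm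
  have inj := phi_inj (mods.test mods.c.lift _ _ _ _ _ _ _ _ _ _ L L' ι ι' v e _ h c1 c2
    (mods.xpt h) (mods.xpt h.symm))
  obtain ⟨n1, n2⟩ := mods.c.nice k K _ h.fine (mods.sm h)
  have cls := mods.cls _ _ _ _ _ _ _ _ _ _ L L' ι ι' v e _ h (mods.xpl h) (mods.xpl h.symm) z n1
  have dv := mods.dv _ _ _ _ _ _ _ _ _ _ L L' ι ι' v e h
  have cln := mods.cln _ _ _ _ _ _ _ _ _ _ L L' ι ι' v e h cls (mods.xeff h) (mods.xeff h.symm)
  have := a.1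
  have := b.1
  have fd : FiniteDimensional ℝ (AG.N1 (XX L L' ι ι' v e)) := fd_of h.Phi dv.spn fun x hx =>
    let ⟨n, p, D, _, q⟩ := cln.cls x hx; ⟨n, p, D, q⟩
  have st := sm.stp _ _ _ _ _ _ _ _ _ _ L L' ι ι' v e _ h inj cls
    (sm.spl _ _ _ _ _ _ _ _ _ _ L L' ι ι' v e _ h (mods.xsig h))
    (sm.ten mods.ga _ _ _ _ _ _ _ _ _ _ L L' ι ι' v e _ h (mods.uf h))
    (sm.ord mods.kq sm.gen gm.bas _ _ _ _ _ _ _ _ _ _ L L' ι ι' v e _ h two)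
    (sm.one _ _ _ _ _ _ _ _ _ _ L L' ι ι' v e _ h)
  have r := sm.mm.ref sm.mm.sol k K _ ⟨n1, n2, fd,
    sm.nls _ _ _ _ _ _ _ _ _ _ L L' ι ι' v e _ h inj cls a.md.nl b.md.nl⟩
  exact ⟨fd, sm.mds sm.mm.int sm.mm.efc _ _ _ _ _ _ _ _ _ _ L L' ι ι' v e h inj dv cln
    (mods.lft _ _ _ _ _ _ _ _ _ _ L L' ι ι' v e h (mods.xsig h)) st r a.md b.md⟩

theorem pstep [Finite Λ] {l : k} {ζ w : K} (h : CH.All L ι l ζ w e) (two : Two κ) (a : Iw L) :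
    Iw (CH.nx L ι l ζ w e) :=
  let ⟨r, md⟩ := PS.pm.step mods.c mm gm.bas h two a.fd a.md
  ⟨r.fd, md⟩

variable {M₀ : Type} [Field M₀] [Algebra k M₀]

/-- A surface as a level. -/
def P1 (T : Set (Subalgebra k M₀)) (φ : M₀) (t : Prop) : Prop :=
  ∃ (Λ κ : Type) (_ : Finite Λ) (_ : Fintype κ) (L : Lv k M₀ Λ κ 0),
    L.Y = T ∧ L.φ = φ ∧ Ok L ∧ Iw L ∧ (t → Two κ)

theorem P1.of {T : Set (Subalgebra k M₀)} {φ : M₀} {t : Prop} (h : AM.P1 T φ t) : P1 T φ t :=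
  let ⟨a, b, c, d, L, e1, e2, e3, e4, e5⟩ := h; ⟨a, b, c, d, L, e1, e2, e3, ⟨e4.fd, e4.md⟩, e5⟩

variable {a r : ℕ}

/-- A level over a product. -/
def Pq (T : Fin a → Set (Subalgebra k M₀)) (φ : Fin a → M₀) (l : Fin r → k) : Prop :=
  ∃ (M Λ κ : Type) (n : ℕ) (_ : Field M) (_ : Algebra k M) (_ : Finite Λ) (_ : Fintype κ)
    (L : Lv k M Λ κ n) (ι : Fin a → M₀ →ₐ[k] M) (ζ : Fin r → M),
      Ok L ∧ Iw L ∧ Tg T φ l L.Y L.φ ∅ ι ζ

theorem pq (l : Fin r → k) (a : ℕ) (T : Fin (a + 1) → Set (Subalgebra k M₀))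
    (φ : Fin (a + 1) → M₀) (h : ∀ i : Fin a, P1 (T i.castSucc) (φ i.castSucc) True)
    (b : Pq (fun _ : Fin 1 => T (Fin.last a)) (fun _ => φ (Fin.last a)) l) : Pq T φ l := by
  induction a with
  | zero =>
    rwa [show T = fun _ => T (Fin.last 0) from funext fun i => congrArg T (Fin.fin_one_eq_zero i),
      show φ = fun _ => φ (Fin.last 0) from funext fun i => congrArg φ (Fin.fin_one_eq_zero i)]
  | succ a ih =>
    obtain ⟨M, Λ, κ, n, _, _, _, _, L, ι₀, ζ, h1, h2, h5⟩ :=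
      ih (Fin.tail T) (Fin.tail φ) (fun i => h i.succ) b
    obtain ⟨Λ', κ', _, _, L', e1, e2, g1, g2, g3⟩ := h 0
    obtain ⟨K, _, _, ι, ι', v, x, y⟩ := mods.geo h1 g1 (Or.inl rfl)
    replace e1 : L'.Y = T 0 := e1
    replace e2 : L'.φ = φ 0 := e2
    have t := tg_step h5 (e2 ▸ x.ext) x.fld g1.ind x.maps (e1 ▸ x.maps') (G := ∅) (Or.inl rfl)
    rw [← e2] at t
    exact ⟨K, _, _, _, _, _, inferInstance, _, nx L L' ι ι' v 1, _, _, mods.next x y,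
      step x (g3 trivial) (mods.hz1 k M M₀ K ι ι' _ _ v x.ext (mods.uf x)) h2 g2, t⟩

/-- The final variety. -/
def Top (T : Fin a → Set (Subalgebra k M₀)) (φ : Fin a → M₀) (l : Fin r → k) : Prop :=
  ∃ (K Λ κ : Type) (_ : Field K) (_ : Algebra k K) (_ : Finite Λ) (_ : Fintype κ) (n : ℕ)
    (L : Lv k K Λ κ n) (j w : K) (ι : Fin a → M₀ →ₐ[k] K) (ζ : Fin r → K), Fam k L.S ∧
      (∀ O ∈ L.Y, Algebra.FormallySmooth k O) ∧ AlgebraicIndependent k L.y ∧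
      Algebra.IsSeparable (adjoin k (Set.range L.y)) K ∧ j ≠ 0 ∧
      Vol L.Y L.y (fun _ => j) ∧ Tg T φ l L.Y (w ^ 2) {w} ι ζ ∧ Iw L

theorem top {T : Fin (a + 1) → Set (Subalgebra k M₀)} {φ : Fin (a + 1) → M₀}
    {l : Fin r → k} (h : P1 (T 0) (φ 0) True) (b : Pq (Fin.tail T) (Fin.tail φ) l)
    (hz : HZ k (φ 0)) : Top T φ l := by
  obtain ⟨M, Λ, κ, n, _, _, _, _, L, ι₀, ζ, h1, h2, h5⟩ := b
  obtain ⟨Λ', κ', _, _, L', e1, e2, g1, g2, g3⟩ := h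
  obtain ⟨K, _, _, ι, ι', v, x, y⟩ := mods.geo h1 g1 (Or.inr rfl)
  obtain ⟨⟨a1, a2, -⟩, a3⟩ := mods.nxb mods.c.der _ _ _ _ _ _ _ _ _ _ L L' ι ι' v 2 x
  obtain ⟨j, j0, hj⟩ :=
    (a3 (mods.vol mods.c.der mods.crq _ _ _ _ _ _ _ _ _ _ L L' ι ι' v 2 _ x)).2 rfl
  have t := tg_step h5 (e2 ▸ x.ext) x.fld g1.ind x.maps (e1 ▸ x.maps') (G := {v * ι L.φ})
    (Or.inr rfl)
  rw [show ι L.φ * ι' (φ 0) = (v * ι L.φ) ^ 2 by rw [← e2, ← x.ext.eq]; ring] at t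
  exact ⟨K, _, _, _, _, inferInstance, inferInstance, _, nx L L' ι ι' v 2, j, _, _, _, y.1, mods.sm x, a1, a2,
    j0, hj, t, step x (g3 trivial) (hz M K _ ι ι' v (e2 ▸ x.ext) x.fld h1.mw (mods.uf x)) h2 g2⟩

theorem P1.pq {T : Set (Subalgebra k M₀)} {φ : M₀} {t : Prop} (h : P1 T φ t) (l : Fin 0 → k) :
    Pq (fun _ : Fin 1 => T) (fun _ => φ) l := by
  obtain ⟨Λ, κ, _, _, L, rfl, rfl, g1, g2, -⟩ := h
  exact ⟨M₀, Λ, κ, 0, _, _, inferInstance, _, L, _, _, g1, g2,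
    tg_base g1.ind ((mods.c.tw k M₀ _ _).1 l)⟩

theorem P1.imp {T : Set (Subalgebra k M₀)} {φ : M₀} {t : Prop} (h : P1 T φ t) (ht : t) :
    P1 T φ True :=
  let ⟨a, b, c, d, L, e1, e2, e3, e4, e5⟩ := h; ⟨a, b, c, d, L, e1, e2, e3, e4, fun _ => e5 ht⟩

/-- At least two surfaces. -/
theorem top2 [CharZero k] {T : Fin (a + 2) → Set (Subalgebra k M)}
    {D₁ D₂ : Fin (a + 2) → Derivation k M M} {φ : Fin (a + 2) → M} {l : Fin r → k}
    (hT : RS.Tower (T 0)) (h1 : RS.BiAnti (T 0) (D₁ 0) (D₂ 0) (φ 0))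
    (h2 : RS.SmoothZero (T 0) (D₁ 0) (D₂ 0) (φ 0))
    (h : ∀ i : Fin (a + 1), P1 (T i.castSucc) (φ i.castSucc) True)
    (b : Pq (fun _ : Fin 1 => T (Fin.last _)) (fun _ => φ (Fin.last _)) l) : Top T φ l := by
  obtain ⟨_, _, _, _, L, e, -, o, -⟩ := h 0
  replace e : L.Y = T 0 := e
  exact top (h 0) (pq l a _ _ (fun i => h i.succ) b)
    (emods.hz mods (emods.ec mods.c.der hT h1 h2 (e ▸ o.nice.toGood) (e ▸ o.tri)))

theorem pq1 {T : Set (Subalgebra k M₀)} {φ : M₀} (h : P1 T φ True) {l : Fin 1 → k}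
    (hl : ∀ i, l i ≠ 0 ∧ l i ≠ 1) : Pq (fun _ : Fin 1 => T) (fun _ => φ) l := by
  obtain ⟨Λ, κ, _, _, L, rfl, rfl, g1, g2, g3⟩ := h
  obtain ⟨K, _, _, ι, ζ, w, x⟩ := mods.c.all g1 (Or.inl rfl) (hl 0).1 (hl 0).2
  exact ⟨K, _, _, _, _, _, inferInstance, inferInstance, CH.nx L ι (l 0) ζ w 1, _, _,
    mods.c.next x, pstep x (g3 trivial) g2, tg_base g1.ind
      (((mods.c.tw k M₀ _ _).2 M₀ K 0 l _ _ _ _ _ ι ζ w 1 ((mods.c.tw k M₀ _ _).1 _) x.ext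
        x.loc.maps x.loc.zm).2 rfl)⟩

theorem top1 {T : Fin 1 → Set (Subalgebra k M₀)} {φ : Fin 1 → M₀}
    (h : P1 (T 0) (φ 0) True) {l : Fin 1 → k} (hl : ∀ i, l i ≠ 0 ∧ l i ≠ 1) : Top T φ l := by
  obtain ⟨Λ, κ, _, _, L, e1, e2, g1, g2, g3⟩ := h
  obtain ⟨K, _, _, ι, ζ, w, x⟩ := mods.c.all g1 (Or.inr rfl) (hl 0).1 (hl 0).2
  obtain ⟨j, j0, hj⟩ := (mods.c.nxb mods.c.der k M₀ K Λ κ 0 L ι _ ζ w 2 x
    (mods.c.vol mods.c.der mods.c.crd k M₀ K Λ κ 0 L ι _ ζ w 2 x)).2 rfl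
  have t := ((mods.c.tw k M₀ _ _).2 M₀ K 0 l _ _ _ _ _ ι ζ w 2 ((mods.c.tw k M₀ _ _).1 _) x.ext
    x.loc.maps x.loc.zm).1
  rw [← pow_one (ι L.φ), ← x.ext.eq] at t
  exact ⟨K, _, _, _, _, inferInstance, inferInstance, _, CH.nx L ι (l 0) ζ w 2, j, w, _, _,
    x.loc.fam, mods.c.sm x, x.fld.ind _ _ g1.ind, x.fld.sep _ _ g1.top, j0, hj,
    tg_base g1.ind (e1 ▸ e2 ▸ t), pstep x (g3 trivial) g2⟩

theorem fin [CharZero k] {T : Fin a → Set (Subalgebra k M)}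
    {D₁ D₂ : Fin a → Derivation k M M} {φ : Fin a → M} {l : Fin r → k}
    (hT : ∀ i, RS.Tower (T i)) (h1 : ∀ i, RS.BiAnti (T i) (D₁ i) (D₂ i) (φ i))
    (h2 : ∀ i, RS.SmoothZero (T i) (D₁ i) (D₂ i) (φ i)) {t : Fin a → Prop}
    (p : ∀ i, P1 (T i) (φ i) (t i)) (h5 : ∀ i : Fin a, i.1 + 1 < a + r → t i) (hr : r ≤ 1)
    (ha : 2 ≤ a + r) (hl : ∀ i, l i ≠ 0 ∧ l i ≠ 1) : Top T φ l := by
  have q := fun i h => (p i).imp (h5 i h)
  obtain _ | _ | a := a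
  · omega
  · obtain rfl : r = 1 := by omega
    exact top1 (q 0 (by simp)) hl
  refine top2 (hT 0) (h1 0) (h2 0) (fun i => q _ (by have := i.2; simp; omega)) ?_
  obtain _ | _ | r := r
  · exact (p _).pq l
  · exact pq1 (q _ (by simp)) hl
  · omega

theorem Top.all {T : Fin a → Set (Subalgebra k M)} {φ : Fin a → M} {l : Fin r → k}
    (h : Top T φ l) :
    ∃ (X : Scheme.{0}) (_ : IsIntegral X) (s : X ⟶ Spec (CommRingCat.of k)),
      IsProjective s ∧ Smooth s ∧ TrivialCanonical s ∧ ProdCover s T φ l ∧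
        AllBir (fun _ _ s => CC.NefConj s ∧ ConeConj s) s := by
  obtain ⟨K, Λ, κ, _, _, _, _, n, L, j, w, ι, ζ, fam, sm, ind, sep, j0, vol, tw, hc⟩ := h
  obtain ⟨J, _, 𝒞, hC, hB⟩ := chart_of fam
  replace hC : Sch.pts 𝒞 = L.Y := hC
  obtain ⟨N⟩ := exists_model 𝒞
  have hO : ∀ q, Sch.OA N q ∈ L.Y := fun q => hC ▸ Sch.OA_mem q
  have ni := mods.c.nice k K L.Y (fine_mp fam) sm
  have r := ref_stmt sol_stmt k K _ ⟨ni.1, ni.2, hc.fd, hc.md.nl⟩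
  have t := mods.c.triv k K J 𝒞 N (n + 1) L.y j ind sep j0 (hC ▸ vol)
  refine ⟨N.X, N.integral, N.s, N.proj, N.smooth fun j => ?_, t, ?_,
    cone_of N (hC ▸ ni.1) t (hC ▸ fun _ => CT.mod r hc.md.fS hc.md.cE)⟩
  · obtain ⟨G, g1, g2⟩ := hB j
    rw [g2]
    exact smG_stmt k K G g1 fun O g3 => sm O (hC ▸ Set.mem_iUnion.2 ⟨j, g2 ▸ g3⟩)
  · letI : Algebra k N.X.functionField := (const N.s).toAlgebra
    let ε : N.X.functionField ≃ₐ[k] K := AlgEquiv.ofRingEquiv (f := N.e) N.e_const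
    have reg : ∀ q, ∀ f ∈ Sch.OA N q, RegAt q (ε.symm f) := fun q f ⟨u, hu⟩ =>
      ⟨u, ε.eq_symm_apply.2 hu⟩
    obtain ⟨x, y, hxy⟩ := tw.ind
    refine ⟨fun i => ε.symm.toAlgHom.comp (ι i), fun i => ε.symm (ζ i), ε.symm w, x, y, ?_, ?_,
      ?_, fun q => ⟨fun i => ?_, fun i => ?_⟩⟩
    · have := hxy.map' (f := ε.symm.toAlgHom) ε.symm.injective
      rw [Sum.comp_elim, Sum.comp_elim] at this
      exact this
    · have := congrArg ε.symm tw.eq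
      simp only [CH.cb, map_pow, map_mul, map_prod, map_sub, map_one, AlgEquiv.commutes] at this
      exact this
    · have := congrArg (IntermediateField.map ε.symm.toAlgHom) tw.top
      rw [IntermediateField.adjoin_map, Set.image_union, Set.image_union, Set.image_iUnion,
        ← Set.range_comp, Set.image_singleton, ← AlgHom.fieldRange_eq_map,
        AlgHom.fieldRange_eq_top.2 ε.symm.surjective] at this
      simp only [← Set.range_comp] at this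
      exact this
    · obtain ⟨R, hR, hd⟩ := (tw.reg _ (hO q)).1 i
      exact ⟨R, hR, fun a ha => reg q _ (hd a ha)⟩
    · rw [← map_inv₀]
      exact ((tw.reg _ (hO q)).2 i).imp (reg q _) (reg q _)

end Pool.Agent.MP_20d318_ag.AC
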