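import Pool.Agent.MP_20d318_ag.AC.LSpec

/-! A finite cone of prime divisors meets all the orbits of effective classes. -/

set_option autoImplicit false
set_option linter.unusedSectionVars false

namespace Pool.Agent.MP_20d318_ag.AC

open Pool.Agent.MP_20d318_ag.CB
open Pool.Agent.MP_20d318_ag.CC (B0 C0 Gp GR)
open Pool.Agent.MP_20d318_ag.Lat (cone IsCone isCone_cone subset_cone)

namespace CovA

variable {ι κ : Type} [Fintype ι] [Fintype κ] {Λ : Ld ι κ}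

theorem ef_cone {c : ι → ℤ} (h : c ∈ Λ.Ef) : toR c ∈ cone (toR '' Λ.P) := by
  induction h using AddSubmonoid.closure_induction with
  | mem x hx => exact subset_cone _ ⟨x, hx, rfl⟩
  | zero => exact toR_zero (ι := ι) ▸ (isCone_cone _).zero
  | add x y _ _ a b => exact toR_add x y ▸ (isCone_cone _).add _ a _ b

theorem fin_prime {x : ι → ℝ} (h : x ∈ cone (toR '' Λ.P)) :
    ∃ T ⊆ Λ.P, T.Finite ∧ x ∈ cone (toR '' T) := by
  obtain ⟨Q, h1, h2⟩ := exists_fin h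
  refine ⟨{c | c ∈ Λ.P ∧ toR c ∈ Q}, fun _ a => a.1,
    (Q.finite_toSet.preimage (f := toR) fun _ _ _ _ e => toR_inj e).subset fun _ a => a.2,
    Lat.cone_mono (fun q hq => ?_) h2⟩
  obtain ⟨c, hc, rfl⟩ := h1 hq
  exact ⟨c, ⟨hc, hq⟩, rfl⟩

theorem pe (hs : ∀ i j, Λ.B i j = Λ.B j i) {x : ι → ℝ} (h : x ∈ cone (toR '' Λ.P)) :
    x ∈ PE Λ := fun L hL _ =>
  (Lat.isCone_half (MP_fd6584_ag.MV.ipL Λ.B L)).cone_subset (by
    rintro _ ⟨c, hc, rfl⟩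
    exact (hL c hc).trans (ip_comm hs _ _).le) h

theorem key {V : Set (ι → ℤ)} (hV : ∀ v ∈ V, Λ.Nef v) {M : ι → ℝ} (h : M ∈ cone (toR '' V))
    (h0 : M ≠ 0) : ∃ v ∈ V, v ≠ 0 ∧ ∀ c ∈ Λ.P, ip Λ.B M (toR c) = 0 → ip Λ.B v c = 0 := by
  have hS : IsCone {M : ι → ℝ | M ∈ Λ.NT ∧ (M = 0 ∨ ∃ v ∈ V, v ≠ 0 ∧
      ∀ c ∈ Λ.P, ip Λ.B M (toR c) = 0 → ip Λ.B v c = 0)} := by
    refine ⟨⟨fun _ _ => (ip_zero_left _).ge, .inl rfl⟩, ?_, ?_⟩
    · rintro x ⟨a1, a2⟩ y ⟨b1, b2⟩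
      refine ⟨fun c hc => by rw [ip_add_left]; exact add_nonneg (a1 c hc) (b1 c hc), ?_⟩
      rcases a2 with rfl | ⟨v, v1, v2, v3⟩
      · rwa [zero_add]
      · refine .inr ⟨v, v1, v2, fun c hc e => v3 c hc ?_⟩
        rw [ip_add_left] at e
        linarith [a1 c hc, b1 c hc]
    · rintro r hr x ⟨a1, a2⟩
      refine ⟨fun c hc => by rw [ip_smul_left]; exact mul_nonneg hr (a1 c hc), ?_⟩
      rcases a2 with rfl | ⟨v, v1, v2, v3⟩
      · exact .inl (smul_zero _)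
      · rcases hr.eq_or_lt with rfl | hr
        · exact .inl (zero_smul _ _)
        · refine .inr ⟨v, v1, v2, fun c hc e => v3 c hc ?_⟩
          rw [ip_smul_left] at e
          exact (mul_eq_zero.1 e).resolve_left hr.ne'
  refine (hS.cone_subset ?_ h).2.resolve_left h0
  rintro _ ⟨v, hv, rfl⟩
  refine ⟨fun c hc => by rw [ip_toR]; exact_mod_cast hV v hv c hc, ?_⟩
  by_cases e : v = 0
  · exact .inl (e ▸ toR_zero)
  · refine .inr ⟨v, hv, e, fun c _ k => ?_⟩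
    rw [ip_toR] at k
    exact_mod_cast k

end CovA

theorem cov_stmt : CovStmt := by
  intro ι κ _ _ Λ G G' b gp gr hG zar fp ⟨V, V1, V2, V3⟩
  have h0 : ∀ v : V, ∃ T ⊆ Λ.P, T.Finite ∧ toR v.1 ∈ cone (toR '' T) := fun v =>
    CovA.fin_prime (CovA.ef_cone (b.lb.ne v.1 (V2 v.1 v.2)).2)
  choose T0 t1 t2 t3 using h0
  haveI := V1.to_subtype
  let T : Set (ι → ℤ) := (⋃ v, T0 v) ∪
    ⋃ v ∈ {v | v ∈ V ∧ v ≠ 0}, {c | c ∈ Ng Λ ∧ ip Λ.B v c = 0}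
  have hV : cone (toR '' V) ⊆ cone (toR '' T) := (isCone_cone _).cone_subset (by
    rintro _ ⟨v, hv, rfl⟩
    exact Lat.cone_mono (Set.image_mono ((Set.subset_iUnion T0 ⟨v, hv⟩).trans
      Set.subset_union_left)) (t3 ⟨v, hv⟩))
  refine ⟨T, Set.union_subset (Set.iUnion_subset t1)
    (Set.iUnion₂_subset fun _ _ _ a => a.1.1), (Set.finite_iUnion t2).union
    ((V1.subset fun _ a => a.1).biUnion fun v hv => fp v (V2 v hv.1) hv.2), fun x hx => ?_⟩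
  obtain ⟨A, N, H, a1, a2, n1, n2, h1, h2, h3, a3⟩ := zar x (CovA.pe b.nc.sym hx) (.inl hx)
  have main : ∀ L ∈ Λ.NT, L ∈ EC Λ → L ≠ 0 → (∀ c ∈ A, ip Λ.B L (toR c) = 0) →
      ∃ ρ ∈ G', act ρ L ∈ cone (toR '' T) ∧ act ρ (x - N) ∈ cone (toR '' T) := by
    intro L l1 l2 l3 l4
    obtain ⟨ρ, r1, r2⟩ := V3 L l1 l2
    obtain ⟨ρ', -, -, r3⟩ := gr.inv ρ (hG r1)
    have r4 : act ρ L ≠ 0 := fun e => l3 (by
      rw [← (r3 L).2, e]
      exact (MP_fd6584_ag.MV.actL ρ').map_zero)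
    obtain ⟨v, v1, v2, v3⟩ := CovA.key V2 r2 r4
    refine ⟨ρ, r1, hV r2,
      ((isCone_cone (toR '' T)).preimage (MP_fd6584_ag.MV.actL ρ)).cone_subset ?_ a2⟩
    rintro _ ⟨c, hc, rfl⟩
    have p := gp.prm ρ (hG r1) c (a1 hc).1
    refine subset_cone _ ⟨act ρ c, .inr (Set.mem_biUnion (x := v) ⟨v1, v2⟩ ⟨⟨p, ?_⟩, v3 _ p ?_⟩),
      toR_act ρ c⟩
    · rw [gp.iso ρ (hG r1)]
      exact (a1 hc).2
    · rw [toR_act, gr.iso ρ (hG r1)]
      exact l4 c hc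
  by_cases e : N = 0
  · obtain ⟨ρ, r1, -, r2⟩ := main H h1 h2 h3 fun c hc => (a3 c hc).2
    exact ⟨ρ, r1, by rwa [e, sub_zero] at r2⟩
  · obtain ⟨ρ, r1, r2, r3⟩ := main N n1 n2 e fun c hc => (a3 c hc).1
    refine ⟨ρ, r1, ?_⟩
    have := (isCone_cone _).add _ r3 _ r2
    rwa [← act_add, sub_add_cancel] at this

end Pool.Agent.MP_20d318_ag.AC
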