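import Pool.Agent.MP_20d318_ag.AC.LSpec

/-! A rational polyhedral cone cut by a family of classes bounded below on its generators. -/

set_option autoImplicit false

namespace Pool.Agent.MP_20d318_ag.AC

open Pool.Agent.MP_20d318_ag.CB
open Pool.Agent.MP_20d318_ag.Lat (cone)
open Pool.Agent.MP_fd6584_ag

theorem cut_stmt : CutStmt := by
  intro ι _ B R Y hR h
  have hF : ((hR.image toR).toFinset : Set (ι → ℝ)) = toR '' R := Set.Finite.coe_toFinset _
  have hm : ∀ r ∈ (hR.image toR).toFinset, ∃ c ∈ R, toR c = r := fun r hr =>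
    (Set.Finite.mem_toFinset (hR.image toR)).1 hr
  obtain ⟨T, t1, t2, t3⟩ := EndB3.dick (hR.image toR).toFinset Y (fun y => MV.ipL B (toR y))
    (fun r hr y _ => by
      obtain ⟨c, -, rfl⟩ := hm r hr
      exact ⟨_, ip_toR B c y⟩)
    (fun r hr => by
      obtain ⟨c, hc, rfl⟩ := hm r hr
      exact h c hc)
  obtain ⟨Q, q1, q2⟩ := MV.rp_cut B (S := cone (toR '' R)) ⟨(hR.image toR).toFinset,
    fun r hr => by
      obtain ⟨c, -, rfl⟩ := hm r hr
      exact MV.mem_LI.2 ⟨c, rfl⟩, by rw [hF]⟩ t2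
  obtain ⟨V, -, v2, v3⟩ := Set.Finite.exists_subset_finite_image_eq (s := Set.univ)
    (f := (toR : (ι → ℤ) → ι → ℝ)) Q.finite_toSet fun x hx => by
      obtain ⟨c, rfl⟩ := MV.mem_LI.1 (q1 hx)
      exact ⟨c, Set.mem_univ _, rfl⟩
  refine ⟨V, v2, ?_⟩
  rw [v3, q2]
  refine Set.ext fun x => and_congr_right fun hx =>
    ⟨fun k y hy => ?_, fun k c hc => k c (t1 hc)⟩
  obtain ⟨j, hj, l⟩ := t3 y hy
  exact (k j hj).trans (l x (by rwa [hF]))

end Pool.Agent.MP_20d318_ag.AC
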