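import Pool.Agent.MP_20d318_ag.AC.LSpec

/-! A finite cone of nef classes meets all the orbits of effective nef classes. -/

set_option autoImplicit false
set_option linter.unusedSectionVars false

namespace Pool.Agent.MP_20d318_ag.AC

open Pool.Agent.MP_20d318_ag.CB
open Pool.Agent.MP_20d318_ag.CC (B0 C0 Gp GR)
open Pool.Agent.MP_20d318_ag.Lat (cone IsCone isCone_cone subset_cone)

theorem cvn_stmt : CvnStmt := by
  intro cut rad ι κ _ _ Λ G G' b c0 ll gr hG ⟨R, hR, hc⟩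
  obtain ⟨V, hV, e⟩ := cut ι Λ.B (R : Set (ι → ℤ)) (Ng Λ) R.finite_toSet fun r hr => by
    obtain ⟨β, hβ⟩ := CC.En3.G_pos b (hR r hr)
    exact ⟨β, fun y hy => hβ y (CC.En3.neg_mem b hy.1 hy.2)⟩
  refine ⟨V, hV, fun v hv => (b.lb.nefr v).1 (c0.ct _ fun c h1 h2 => ?_), fun L h1 h2 => ?_⟩
  · have k : toR v ∈ cone (toR '' V) := subset_cone _ ⟨v, hv, rfl⟩
    rw [e] at k
    exact k.2 c ⟨h1, h2⟩
  · obtain ⟨ρ, k1, k2⟩ := hc L h1 (rad ι κ Λ b ll L h1 h2)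
    refine ⟨ρ, k1, ?_⟩
    rw [e]
    exact ⟨k2, fun y hy => gr.nt ρ (hG k1) L h1 y hy.1⟩

end Pool.Agent.MP_20d318_ag.AC
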