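import Pool.Agent.MP_20d318_ag.AC.LSpec

/-! The effective classes over a finite cone lie in a finite cone of prime divisors. -/

set_option autoImplicit false
set_option linter.unusedSectionVars false

namespace Pool.Agent.MP_20d318_ag.AC

open Pool.Agent.MP_20d318_ag.CB
open Pool.Agent.MP_20d318_ag.CC (B0 C0 Gp GR)
open Pool.Agent.MP_20d318_ag.Lat (cone IsCone isCone_cone subset_cone cone_mono)
open Pool.Agent.MP_fd6584_ag.MV (actL)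

namespace FinA

variable {ι : Type} [Fintype ι]

theorem fin_sub {P : Set (ι → ℤ)} {R : Set (ι → ℝ)} (hR : R.Finite) (h : R ⊆ cone (toR '' P)) :
    ∃ T ⊆ P, T.Finite ∧ cone R ⊆ cone (toR '' T) := by
  choose! Q q1 q2 using fun r (hr : r ∈ R) => exists_fin (h hr)
  refine ⟨P ∩ toR ⁻¹' (⋃ r ∈ R, (Q r : Set (ι → ℝ))), Set.inter_subset_left,
    ((hR.biUnion fun r _ => (Q r).finite_toSet).preimage fun _ _ _ _ => toR_inj).inter_of_right _,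
    (isCone_cone _).cone_subset fun r hr => cone_mono (fun y hy => ?_) (q2 r hr)⟩
  obtain ⟨c, c1, rfl⟩ := q1 r hr hy
  exact ⟨c, ⟨c1, Set.mem_biUnion hr hy⟩, rfl⟩

theorem coneL (B : ι → ι → ℤ) (y : ι → ℝ) : IsCone {x : ι → ℝ | 0 ≤ ip B x y} :=
  ⟨(ip_zero_left (B := B) y).ge, fun a ha b hb => by
    rw [Set.mem_ofPred_eq, ip_add_left]; exact add_nonneg ha hb, fun t ht a ha => by
    rw [Set.mem_ofPred_eq, ip_smul_left]; exact mul_nonneg ht ha⟩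

theorem coneR (B : ι → ι → ℤ) (x : ι → ℝ) : IsCone {y : ι → ℝ | 0 ≤ ip B x y} :=
  ⟨(ip_zero_right (B := B) x).ge, fun a ha b hb => by
    rw [Set.mem_ofPred_eq, ip_add_right]; exact add_nonneg ha hb, fun t ht a ha => by
    rw [Set.mem_ofPred_eq, ip_smul_right]; exact mul_nonneg ht ha⟩

end FinA

open FinA in
theorem fin_stmt : FinStmt := by
  intro cut ι κ _ _ Λ G b gp gr zar ⟨V, hV, hn, hc⟩ R hR hP
  obtain ⟨R0, r1, r2, r3⟩ := fin_sub hR hP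
  have nf : ∀ c ∈ Λ.P, ∀ y ∈ {y : ι → ℤ | ∃ ρ ∈ G, ∃ v ∈ V, y = act ρ v},
      0 ≤ ip Λ.B (toR c) (toR y) := by
    rintro c h _ ⟨ρ, h1, v, h2, rfl⟩
    rw [ip_toR, ip_comm b.nc.sym]
    exact_mod_cast gr.nef ρ h1 v (hn v h2) c h
  obtain ⟨β, hβ⟩ := (((Set.finite_univ (α := κ)).prod hV).image fun q =>
    |ip Λ.B (toR (Λ.C q.1)) (toR q.2)|).bddAbove
  have key : ∀ k, ∀ y ∈ {y : ι → ℤ | ∃ ρ ∈ G, ∃ v ∈ V, y = act ρ v},
      |ip Λ.B (toR (Λ.C k)) (toR y)| ≤ β := by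
    rintro k _ ⟨ρ, h1, v, h2, rfl⟩
    obtain ⟨π, h3⟩ := gp.perm ρ h1
    rw [← π.apply_symm_apply k, ← h3, ip_toR, gp.iso ρ h1, ← ip_toR]
    exact hβ ⟨(π.symm k, v), ⟨trivial, h2⟩, rfl⟩
  obtain ⟨V1, v1, v2⟩ := cut ι Λ.B (R0 ∪ (Set.range Λ.C ∪ Set.range fun k => -Λ.C k))
    {y | ∃ ρ ∈ G, ∃ v ∈ V, y = act ρ v}
    (r2.union ((Set.finite_range _).union (Set.finite_range _))) (by
      rintro r (h | ⟨k, rfl⟩ | ⟨k, rfl⟩)
      · exact ⟨0, fun y hy => neg_zero.le.trans (nf r (r1 h) y hy)⟩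
      · exact ⟨β, fun y hy => (abs_le.1 (key k y hy)).1⟩
      · refine ⟨β, fun y hy => ?_⟩
        rw [toR_neg, ip_neg_left]
        exact neg_le_neg (abs_le.1 (key k y hy)).2)
  obtain ⟨T, t1, t2, t3⟩ := fin_sub (P := Λ.P) (v1.image toR) (by
    rintro _ ⟨g, hg, rfl⟩
    have g1 : toR g ∈ cone (toR '' V1) := subset_cone _ ⟨g, hg, rfl⟩
    rw [v2] at g1
    have g2 : toR g ∈ PE Λ := fun L l1 l2 => by
      obtain ⟨ρ, h1, h2⟩ := hc L l1 l2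
      obtain ⟨ρ', h3, -, h4⟩ := gr.inv ρ h1
      rw [← (h4 L).2]
      refine ((coneR Λ.B (toR g)).preimage (actL ρ')).cone_subset ?_ h2
      rintro _ ⟨v, hv, rfl⟩
      have := g1.2 _ ⟨ρ', h3, v, hv, rfl⟩
      rwa [toR_act] at this
    obtain ⟨A, N, -, a1, a2, -, a4, -⟩ := zar _ g2 (Or.inr ⟨g, rfl⟩)
    rw [← add_sub_cancel N (toR g)]
    exact (isCone_cone _).add _ a4 _
      (cone_mono (Set.image_mono fun c h => (a1 h).1) a2))
  refine ⟨T, t1, t2, fun x hx => t3 ?_⟩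
  rw [v2]
  refine ⟨(isCone_cone _).cone_subset ?_ hx.2, fun y hy =>
    (coneL Λ.B (toR y)).cone_subset ?_ hx.1⟩
  · rintro r (h | ⟨k, rfl⟩ | ⟨k, rfl⟩)
    · exact cone_mono (Set.image_mono Set.subset_union_left) (r3 (subset_cone _ h))
    · exact subset_cone _ ⟨_, Or.inr (Or.inl ⟨k, rfl⟩), rfl⟩
    · exact subset_cone _ ⟨_, Or.inr (Or.inr ⟨k, rfl⟩), toR_neg _⟩
  · rintro _ ⟨c, h, rfl⟩
    exact nf c h y hy

end Pool.Agent.MP_20d318_ag.AC
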