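import Pool.Agent.MP_20d318_ag.AC.LSpec

/-! Finitely many negative curves are orthogonal to a nef class. -/

set_option autoImplicit false
set_option linter.unusedSectionVars false

namespace Pool.Agent.MP_20d318_ag.AC

open Pool.Agent.MP_20d318_ag.CB
open Pool.Agent.MP_20d318_ag.CC (B0 C0 Gp GR)

namespace FpA

variable {ι κ : Type} [Fintype ι] [Fintype κ] {Λ : Ld ι κ}

theorem ge (b : B0 Λ) {c : ι → ℤ} (h : c ∈ Ng Λ) : -4 ≤ ip Λ.B c c := by
  rcases b.lb.neg c h.1 h.2 with ⟨k, rfl⟩ | ⟨-, e, -⟩ | ⟨-, e, -⟩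
  · exact (b.nc.m4 k).ge
  · omega
  · omega

end FpA

theorem fp_stmt : FpStmt := by
  intro ι κ _ _ Λ b v hv v0
  obtain ⟨h1, h2⟩ := b.lb.ne v hv
  have sy := fun x y : ι → ℤ => ip_comm b.nc.sym x y
  rcases h1.lt_or_eq with h | h
  · refine (b.hg.fin v 4 h).subset fun c hc => ⟨?_, FpA.ge b hc.1⟩
    rw [sy, hc.2]
    norm_num
  · have m0 := b.lb.hef v h2 v0
    obtain ⟨m, hm⟩ : ∃ m, m = ip Λ.B Λ.h v := ⟨_, rfl⟩
    rw [← hm] at m0
    refine Set.Finite.of_finite_image (f := fun c => m • c - ip Λ.B Λ.h c • v)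
      ((b.hg.fin Λ.h (4 * m ^ 2) b.lb.hh).subset ?_) fun c hc c' hc' e => ?_
    · rintro _ ⟨c, hc, rfl⟩
      have := FpA.ge b hc.1
      refine ⟨?_, ?_⟩
      · rw [ip_sub_left, ip_smul_left, ip_smul_left, sy c, sy v, ← hm, mul_comm, sub_self, abs_zero]
        positivity
      · simp only [ip_sub_left, ip_sub_right, ip_smul_left, ip_smul_right]
        rw [sy c v, hc.2, ← h]
        nlinarith [sq_nonneg m]
    · by_contra k
      have e1 := congrArg (fun x => ip Λ.B x c) e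
      simp only [ip_sub_left, ip_smul_left] at e1
      rw [hc.2, mul_zero, mul_zero, sub_zero, sub_zero] at e1
      have e2 := mul_left_cancel₀ m0.ne' e1
      have e3 := b.nc.pos c' hc'.1.1 c hc.1.1 (Ne.symm k)
      have e4 := hc.1.2
      omega

end Pool.Agent.MP_20d318_ag.AC
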