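import Pool.Agent.MP_20d318_ag.AM.K5

/-! Finite generation on a surface whose curve is a union of curves of square `-4`. -/

section

set_option autoImplicit false
set_option linter.unusedSectionVars false

namespace Pool.Agent.MP_20d318_ag.AM.Cb

open Pool.Agent.MP_20d318_ag.CB Pool.Agent.MP_20d318_ag.CB.P
open Pool.Agent.MP_20d318_ag.CH (lv0 ldN Iso)
open Pool.Agent.MP_fd6584_ag.AG (Curve)

/-- A property of lattices. -/
def LRow (q : ∀ {ι κ : Type} [Fintype ι] [Fintype κ], Ld ι κ → Prop) : Prop :=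
  ∀ (ι κ : Type) [Fintype ι] [Fintype κ] (Λ : Ld ι κ), CC.B0 Λ → q Λ

/-- BGE. -/
def BgeStmt : Prop := LRow fun Λ => Bg Λ

/-- BIG. -/
def BigStmt : Prop := SolStmt.{0} → LRow fun Λ => Bg Λ → Ctr Λ → Big Λ

/-- CLA. -/
def ClaStmt : Prop := LRow fun Λ => Cla Λ

/-- CHN. -/
def ChnStmt : Prop := LRow fun Λ => Cla Λ → Chn Λ

/-- STB. -/
def StbStmt : Prop := LRow fun Λ => Big Λ → Chn Λ → Stb Λ

/-- A property of surfaces. -/
def PRow (q : ∀ {k M I κ : Type} [Field k] [Field M] [Algebra k M] [Fintype I] [Fintype κ],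
    Pd k M I κ → Prop) : Prop :=
  ∀ (k M I κ : Type) [Field k] [NeZero (2 : k)] [IsAlgClosed k] [Field M] [Algebra k M] [Fintype I]
    [Fintype κ] (p : Pd k M I κ), Pair0 p → CC.B0 p.ld → CC.TA p.toSd → q p

/-- RSA. -/
def RsaStmt : Prop := PRow fun p => Rsa p

/-- SEA. -/
def SeaStmt : Prop := PRow fun p => Stb p.ld → Rsa p → Sea p

/-- SEM. -/
def SemStmt : Prop := PRow fun p => Big p.ld → Sea p → ∀ y, NB p.ld y → ∀ O ∈ p.T, SeAt p y O

/-- SQZ. -/
def SqzStmt : Prop := PRow fun p => ∀ y, p.ld.Nef y → ip p.B y y = 0 → ∀ O ∈ p.T, SeAt p y O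

/-- FGB. -/
def FgbStmt : Prop := SolStmt.{0} → CptStmt →
  PRow fun p => (∀ y, p.ld.Nef y → ∀ O ∈ p.T, SeAt p y O) → Fgb p

/-- BSE. -/
def BseStmt : Prop := SolStmt.{0} → PRow fun p => ∀ G ψ, Iso (ldN p.ld G) (lv0 p).nd ψ →
  (∀ (ν : Curve (lv0 p).Y) x, ν.lin (ψ x) = ip p.B x (toR (p.zz ν))) → Efb p.ld G → Fgb p →
    MD (lv0 p)

end Pool.Agent.MP_20d318_ag.AM.Cb

end

section


set_option autoImplicit false
set_option linter.unusedSectionVars false

namespace Pool.Agent.MP_20d318_ag.AM.Cb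

open Pool.Agent.MP_20d318_ag.CB

namespace BgeA

theorem arith (s a b c : ℤ) (hs : 0 < s) : ∃ m : ℕ, 0 < m ∧ m * a - b ≤ m * (m * s) ∧
    c < m * s := by
  obtain ⟨m, hm⟩ : ∃ m : ℕ, (m : ℤ) = |a| + |b| + |c| + 1 := ⟨_, Int.toNat_of_nonneg (by positivity)⟩
  have a1 := le_abs_self a
  have a2 := neg_abs_le b
  have a3 := le_abs_self c
  have b1 := abs_nonneg a
  have b2 := abs_nonneg b
  have b3 := abs_nonneg c
  have h1 : (m : ℤ) * 1 ≤ m * s := mul_le_mul_of_nonneg_left hs (by positivity)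
  have h2 : (1 : ℤ) ≤ m := by linarith
  refine ⟨m, by omega, ?_, by linarith⟩
  have h3 : (m : ℤ) * (a + |b|) ≤ m * (m * s) :=
    mul_le_mul_of_nonneg_left (by linarith) (by positivity)
  have h4 : 1 * |b| ≤ (m : ℤ) * |b| := mul_le_mul_of_nonneg_right h2 b2
  linarith

end BgeA

theorem bge_stmt : BgeStmt := by
  intro ι κ _ _ Λ h y hy w
  obtain ⟨m, h0, h1, h2⟩ := BgeA.arith (ip Λ.B y y) (ip Λ.B y Λ.K + 2 * ip Λ.B y w)
    (ip Λ.B Λ.K w + ip Λ.B w w) (ip Λ.B y Λ.K + ip Λ.B y w) hy.2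
  refine ⟨m, h0, (h.nc.rr _ ?_).resolve_right fun k => ?_⟩
  · simp only [ip_sub_left, ip_sub_right, ip_nsmul_left, ip_nsmul_right,
      ip_comm h.nc.sym Λ.K y, ip_comm h.nc.sym w y]
    linarith
  · have := h.lb.efn y hy.1 _ k
    simp only [ip_sub_right, ip_nsmul_right] at this
    linarith

end Pool.Agent.MP_20d318_ag.AM.Cb

end

section


set_option autoImplicit false
set_option linter.unusedSectionVars false

namespace Pool.Agent.MP_20d318_ag.AM.Cb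

open Pool.Agent.MP_20d318_ag.CB
open Pool.Agent.MP_fd6584_ag.MV (LA)
open Pool.Agent.MP_20d318_ag.Lat (cone)

namespace BigA

variable {ι κ : Type} [Fintype ι] [Fintype κ] {Λ : Ld ι κ}

/-- A nonzero real nef class is positive on the ample class. -/
theorem posh (h : CC.B0 Λ) (g : Bg Λ) {L : ι → ℝ} (hL : L ∈ Λ.NT) (h0 : L ≠ 0) :
    0 < ip Λ.B L (toR Λ.h) := by
  by_contra hn
  have key : ∀ w, ip Λ.B L (toR w) ≤ 0 := fun w => by
    obtain ⟨m, -, hm⟩ := g Λ.h ⟨fun c hc => (h.nc.hpos c hc).le, h.lb.hh⟩ w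
    have a := h.lb.efr L hL _ hm
    rw [toR_sub, toR_nsmul, ip_sub_right, ip_smul_right] at a
    have b := mul_nonpos_of_nonneg_of_nonpos (Nat.cast_nonneg (α := ℝ) m) (not_lt.1 hn)
    linarith
  refine h0 (h.hg.nd L fun y => le_antisymm (key y) ?_)
  have a := key (-y)
  rw [toR_neg, ip_neg_right] at a
  linarith

end BigA

open BigA in
theorem big_stmt : BigStmt := by
  intro sol ι κ _ _ Λ h g ct y hy w
  obtain ⟨M, M0, hM⟩ := g y hy (w + Λ.h)
  obtain ⟨F, c, c0, hc⟩ := Lat.farkas_compact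
    (fun c : Ra Λ => MP_fd6584_ag.MV.ipL Λ.B (toR c.1))
    (MP_fd6584_ag.MV.ipL Λ.B (toR (M • y - w))) fun Z Z0 hZ hd => by
      have hN : Z ∈ Λ.NT := ct Z fun c hc => hZ ⟨c, hc⟩
      have a := h.lb.efr Z hN _ hM
      have b := posh h g hN Z0
      rw [← sub_sub, toR_sub, ip_sub_right] at a
      rw [MP_fd6584_ag.MV.ipL_apply] at hd
      exact absurd hd (by linarith)
  have e : toR (M • y - w) - ∑ i ∈ F, c i • toR i.1 = 0 := h.hg.nd _ fun z => by
    have a := hc (toR z)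
    simp only [MP_fd6584_ag.MV.ipL_apply] at a
    rw [ip_comm h.nc.sym, ip_sub_right, a, ip_sum_right, sub_eq_zero]
    exact Finset.sum_congr rfl fun i _ => (ip_smul_right _ _ _).symm
  have m : toR (M • y - w) ∈ cone (toR '' Ra Λ) := by
    rw [sub_eq_zero.1 e]
    exact (Lat.isCone_cone _).sum_mem _ _ fun i _ =>
      (Lat.isCone_cone _).smul _ (c0 i) _ (Lat.subset_cone _ ⟨i.1, i.2, rfl⟩)
  obtain ⟨n, n0, hn⟩ := sol_int sol m
  refine ⟨n * M, n, Nat.mul_pos n0 M0, n0, ?_⟩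
  rwa [smul_sub, smul_smul] at hn

end Pool.Agent.MP_20d318_ag.AM.Cb

end

section


set_option autoImplicit false
set_option linter.unusedSectionVars false

namespace Pool.Agent.MP_20d318_ag.AM.Cb

open Pool.Agent.MP_20d318_ag.CB
open Pool.Agent.MP_fd6584_ag.MV (LA)

namespace ClaA

variable {ι κ : Type} [Fintype ι] [Fintype κ] {Λ : Ld ι κ} {y : ι → ℤ}

theorem sum_nonneg {B : ι → ι → ℤ} {v : ι → ℤ} (s : Multiset (ι → ℤ))
    (h : ∀ c ∈ s, 0 ≤ ip B v c) : 0 ≤ ip B v s.sum := by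
  induction s using Multiset.induction_on with
  | empty => exact (ip_zero_right v).ge
  | cons a s ih =>
    rw [Multiset.sum_cons, ip_add_right]
    exact add_nonneg (h a (Multiset.mem_cons_self _ _))
      (ih fun c hc => h c (Multiset.mem_cons_of_mem hc))

theorem negsq (l : CC.B0 Λ) (hy : NB Λ y) {s : Multiset (ι → ℤ)} (h : ∀ c ∈ s, c ∈ Nu Λ y)
    (h0 : s ≠ 0) : ip Λ.B s.sum s.sum < 0 := by
  have h1 : ip Λ.B y s.sum = 0 := by
    have a := sum_nonneg (B := Λ.B) (v := y) s fun c hc => (h c hc).2.ge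
    have b := sum_nonneg (B := Λ.B) (v := -y) s fun c hc => by rw [ip_neg_left, (h c hc).2]; rfl
    rw [ip_neg_left] at b
    omega
  have h2 : s.sum ≠ 0 := fun e => by
    obtain ⟨c, hc⟩ := Multiset.exists_mem_of_ne_zero h0
    obtain ⟨t, rfl⟩ := Multiset.exists_cons_of_mem hc
    have a := l.nc.hpos c (h c hc).1.1
    have b := sum_nonneg (B := Λ.B) (v := Λ.h) t fun c hc =>
      (l.nc.hpos c (h c (Multiset.mem_cons_of_mem hc)).1.1).le
    have d := congrArg (ip Λ.B Λ.h) e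
    rw [Multiset.sum_cons, ip_add_right, ip_zero_right] at d
    omega
  have := l.hg.neg (toR y) (toR s.sum) (by rw [ip_toR]; exact_mod_cast hy.2)
    (by rw [ip_toR, ip_comm l.nc.sym, h1, Int.cast_zero]) fun e => h2 (toR_inj (e.trans toR_zero.symm))
  rw [ip_toR] at this
  exact_mod_cast this

theorem ex (l : CC.B0 Λ) (hy : NB Λ y) {s : Multiset (ι → ℤ)} (h : ∀ c ∈ s, c ∈ Nu Λ y)
    (h0 : s ≠ 0) (hc : ∀ c ∈ s, 0 ≤ ip Λ.B (Λ.K + s.sum) c) : False := by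
  classical
  obtain ⟨t, ht⟩ : ∃ t : Finset κ, ∀ k, k ∈ t ↔ Λ.C k ∈ s :=
    ⟨Finset.univ.filter fun k => Λ.C k ∈ s, by simp⟩
  have h1 : t.val.map Λ.C ≤ s := by
    refine (Multiset.le_iff_subset (t.nodup.map_on fun k hk m _ e => ?_)).2 fun c hc => ?_
    · by_contra hne
      have a := negsq l hy (s := {Λ.C k})
        (fun c hc => Multiset.mem_singleton.1 hc ▸ h _ ((ht k).1 hk)) (by simp)
      have b := l.nc.disj k m hne
      rw [Multiset.sum_singleton] at a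
      rw [← e] at b
      omega
    · obtain ⟨k, hk, rfl⟩ := Multiset.mem_map.1 hc
      exact (ht k).1 hk
  obtain ⟨r, hr⟩ := Multiset.le_iff_exists_add.1 h1
  have h2 : ∀ c ∈ s + r, c ∈ s := fun c hc => (Multiset.mem_add.1 hc).elim id fun a =>
    hr ▸ Multiset.mem_add.2 (Or.inr a)
  have h3 : s.sum = ∑ k ∈ t, Λ.C k + r.sum := by
    conv_lhs => rw [hr, Multiset.sum_add]
    rfl
  refine (negsq l hy (s := s + r) (fun c a => h c (h2 c a)) (by simp [h0])).not_ge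
    (sum_nonneg _ fun c a => ?_)
  have b := h2 c a
  have d := hc c b
  have e := l.lb.sumK c
  have f : 0 ≤ ∑ k ∈ tᶜ, ip Λ.B (Λ.C k) c := Finset.sum_nonneg fun k hk =>
    l.nc.pos _ (l.nc.memC k) _ (h c b).1.1 fun g => Finset.mem_compl.1 hk ((ht k).2 (g ▸ b))
  have g := congrArg (fun v => ip Λ.B v c) h3
  rw [← Finset.sum_add_sum_compl t] at e
  simp only [ip_add_left, ip_sum_left] at g
  rw [ip_add_left] at d
  rw [Multiset.sum_add, ip_add_left]
  omega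

theorem claimA (l : CC.B0 Λ) (hy : NB Λ y) (s : Multiset (ι → ℤ)) :
    (∀ c ∈ s, c ∈ Nu Λ y) → s ≠ 0 → ip Λ.B (Λ.K + s.sum) s.sum ≤ -2 := by
  induction s using Multiset.strongInductionOn with
  | _ s ih =>
    intro h h0
    by_contra hlt
    refine ex l hy h h0 fun c hc => ?_
    obtain ⟨t, rfl⟩ := Multiset.exists_cons_of_mem hc
    have a := (h c hc).1.2
    have b := Int.even_iff.1 (l.nc.par (c ::ₘ t).sum)
    have d := ip_comm l.nc.sym c t.sum
    by_cases t0 : t = 0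
    · subst t0
      simp only [Multiset.sum_cons, Multiset.sum_zero, add_zero, ip_add_left] at hlt
      omega
    have e := ih t (Multiset.lt_cons_self _ _) (fun c hc => h c (Multiset.mem_cons_of_mem hc)) t0
    simp only [Multiset.sum_cons, ip_add_left, ip_add_right] at hlt b e ⊢
    omega

end ClaA

open ClaA in
theorem cla_stmt : ClaStmt := by
  classical
  intro ι κ _ _ Λ l y hy c₀ hc₀ N hN hN0
  obtain ⟨s, hs, rfl⟩ := AddSubmonoid.exists_multiset_of_mem_closure hN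
  have s0 : s ≠ 0 := by rintro rfl; exact hN0 rfl
  by_contra hcon
  have h1 : ∀ c ∈ s, 0 ≤ ip Λ.B (Λ.K + c₀ + s.sum) c := fun c hc => by
    by_contra hlt
    refine hcon ⟨c, hs c hc, ?_, by omega⟩
    obtain ⟨t, rfl⟩ := Multiset.exists_cons_of_mem hc
    rw [Multiset.sum_cons, add_sub_cancel_left]
    exact multiset_sum_mem _ fun x hx =>
      AddSubmonoid.subset_closure (hs x (Multiset.mem_cons_of_mem hx))
  have h2 := sum_nonneg s h1
  have h3 := claimA l hy (c₀ ::ₘ s)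
    (fun c hc => (Multiset.mem_cons.1 hc).elim (fun e => e ▸ hc₀) (hs c)) Multiset.cons_ne_zero
  have h4 := claimA l hy s hs s0
  have h5 := hc₀.1.2
  have h6 := ip_comm l.nc.sym c₀ s.sum
  by_cases h : c₀ ∈ s
  · have h7 := h1 c₀ h
    simp only [Multiset.sum_cons, ip_add_left, ip_add_right] at h2 h3 h7
    omega
  · have h7 := sum_nonneg (B := Λ.B) (v := c₀) s fun c hc =>
      l.nc.pos _ hc₀.1.1 _ (hs c hc).1.1 fun e => h (e ▸ hc)
    simp only [Multiset.sum_cons, ip_add_left, ip_add_right] at h2 h3 h4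
    omega

end Pool.Agent.MP_20d318_ag.AM.Cb

end

section


set_option autoImplicit false
set_option linter.unusedSectionVars false

namespace Pool.Agent.MP_20d318_ag.AM.Cb

open Pool.Agent.MP_20d318_ag.CB Pool.Agent.MP_20d318_ag.CB.P
open Pool.Agent.MP_fd6584_ag.MV (LA)

namespace ChnA

variable {ι κ : Type} [Fintype ι] [Fintype κ] {Λ : Ld ι κ} {δ : (ι → ℤ) → ℤ} {y : ι → ℤ}

theorem pos (hδ : Dl Λ δ) {N : ι → ℤ}
    (hN : N ∈ AddSubmonoid.closure {c | c ∈ Ra Λ ∧ 0 < ip Λ.B y c}) :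
    ∀ W, ∃ n₀ : ℕ, ∀ n ≥ n₀, δ (n • y - W) ≤ δ (n • y - W - N) := by
  induction hN using AddSubmonoid.closure_induction with
  | mem c hc =>
    refine fun W => ⟨(ip Λ.B W c).toNat, fun n hn => hδ _ c hc.1 ?_⟩
    have a : (n : ℤ) * 1 ≤ n * ip Λ.B y c := mul_le_mul_of_nonneg_left hc.2 n.cast_nonneg
    rw [ip_sub_left, ip_nsmul_left]
    omega
  | zero => exact fun W => ⟨0, fun n _ => by rw [sub_zero]⟩
  | add a b _ _ ha hb =>
    intro W
    obtain ⟨m, h1⟩ := ha W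
    obtain ⟨m', h2⟩ := hb (W + a)
    refine ⟨max m m', fun n hn => (h1 n ((le_max_left _ _).trans hn)).trans ?_⟩
    simpa only [sub_sub, add_assoc] using h2 n ((le_max_right _ _).trans hn)

theorem null (l : CC.B0 Λ) (hC : Cla Λ) (hδ : Dl Λ δ) (hy : NB Λ y) {c : ι → ℤ} (hc : c ∈ Nu Λ y)
    (n : ℕ) : ∀ (k : ℕ), ∀ N ∈ AddSubmonoid.closure (Nu Λ y), ip Λ.B Λ.h N ≤ k →
      δ (n • y - c) ≤ δ (n • y - c - N) := by
  intro k
  induction k with
  | zero =>
    intro N hN hk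
    rcases eq_or_ne N 0 with rfl | h0
    · rw [sub_zero]
    · exact absurd (l.lb.hef N (AddSubmonoid.closure_mono (fun _ q => q.1.1) hN) h0) hk.not_gt
  | succ k ih =>
    intro N hN hk
    rcases eq_or_ne N 0 with rfl | h0
    · rw [sub_zero]
    obtain ⟨c', h1, h2, h3⟩ := hC y hy c hc N hN h0
    have a := l.nc.hpos c' h1.1.1
    have b := h1.1.2
    refine (ih _ h2 (by rw [ip_sub_right]; push_cast at hk; omega)).trans
      ((hδ _ c' h1.1 ?_).trans_eq (congrArg δ (by abel)))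
    rw [ip_add_left, ip_add_left] at h3
    rw [ip_sub_left, ip_sub_left, ip_sub_left, ip_nsmul_left, h1.2]
    omega

end ChnA

open ChnA in
theorem chn_stmt : ChnStmt := by
  intro ι κ _ _ Λ l hC δ hδ y hy c hc h N hN
  rcases h with h | h
  · have : N ∈ AddSubmonoid.closure (Nu Λ y ∪ {c | c ∈ Ra Λ ∧ 0 < ip Λ.B y c}) :=
      AddSubmonoid.closure_mono (fun x hx => (hy.1 x hx.1).eq_or_lt.imp (fun q => ⟨hx, q.symm⟩)
        fun q => ⟨hx, q⟩) hN
    rw [AddSubmonoid.closure_union, AddSubmonoid.mem_sup] at this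
    obtain ⟨a, ha, b, hb, rfl⟩ := this
    obtain ⟨m, hm⟩ := pos hδ hb (c + a)
    refine ⟨m, fun n hn => (null l hC hδ hy ⟨hc, h⟩ n _ a ha (Int.self_le_toNat _)).trans ?_⟩
    simpa only [sub_sub, add_assoc] using hm n hn
  · exact pos hδ (AddSubmonoid.closure_mono (fun x hx => And.intro hx (h x hx.1)) hN) c

end Pool.Agent.MP_20d318_ag.AM.Cb

end

section


set_option autoImplicit false
set_option linter.unusedSectionVars false

namespace Pool.Agent.MP_20d318_ag.AM.Cb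

open Pool.Agent.MP_20d318_ag.CB

theorem stb_stmt : StbStmt := by
  intro ι κ _ _ Λ _ big chn δ hδ y hy h0 c hc hyc
  obtain ⟨m, n', hm, hn', hN⟩ := big y hy c
  obtain ⟨n', rfl⟩ := Nat.exists_eq_succ_of_ne_zero hn'.ne'
  have hN' : m • y - c ∈ AddSubmonoid.closure (Ra Λ) := by
    have := add_mem hN (nsmul_mem (AddSubmonoid.subset_closure hc) n')
    rwa [succ_nsmul, show m • y - (n' • c + c) + n' • c = m • y - c by abel] at this
  obtain ⟨n₀, hn₀⟩ := chn δ hδ y hy c hc hyc _ hN'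
  by_contra hcon
  push Not at hcon
  have step : ∀ n ≥ n₀, δ ((n + m) • y) + 1 ≤ δ (n • y) := fun n hn => by
    have a := hn₀ (n + m) (by omega)
    rw [show (n + m) • y - c - (m • y - c) = n • y by rw [add_nsmul]; abel] at a
    exact (hcon (n + m) (by omega)).trans_le a
  have dec : ∀ j : ℕ, δ ((n₀ + j * m) • y) + j ≤ δ (n₀ • y) := fun j => by
    induction j with
    | zero => simp
    | succ j ih =>
      have a := step (n₀ + j * m) (by omega)
      rw [add_mul, one_mul, ← add_assoc]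
      push_cast
      linarith
  have a := dec ((δ (n₀ • y)).toNat + 1)
  have b := h0 (n₀ + ((δ (n₀ • y)).toNat + 1) * m)
  have d := h0 n₀
  omega

end Pool.Agent.MP_20d318_ag.AM.Cb

end

section


set_option autoImplicit false
set_option linter.unusedSectionVars false

namespace Pool.Agent.MP_20d318_ag.AM.Cb

open Pool.Agent.MP_fd6584_ag.Fn Pool.Agent.CBk
open Pool.Agent.MP_fd6584_ag.AG hiding deg_inv deg_congr deg_of_unit deg_mul deg_prod deg_zpow
  deg_eq_zero deg_nonneg deg_div deg_pow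
open Pool.Agent.MP_20d318_ag.CB Pool.Agent.MP_20d318_ag.CB.P

namespace RsaA

variable {k M I : Type} [Field k] [Field M] [Algebra k M] [Fintype I] {S : Sd k M I}
  [NeZero (2 : k)] [IsAlgClosed k]

theorem range_le (h1 : A1 S) (ν : Curve S.T) (D : I → ℤ) (hd : 0 ≤ ν.deg (S.lb D))
    (Q₀ : Place k ν.L) (hQ : ∀ s ∈ S.Sec D, ¬ IsU (ν.pt Q₀) (s * S.lb D (ν.pt Q₀))) :
    (Module.finrank k (LinearMap.range (resMap ν D)) : ℤ) ≤ ν.deg (S.lb D) := by
  classical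
  let E : Divisor k ν.L := Finsupp.ofSupportFinite
    (fun Q => Q.ord (ν.ev (S.lb D (ν.pt Q) / S.lb D ν.gen))) ((h1.cart D).fin h1.nice.toGood ν)
  have hE : deg E = ν.deg (S.lb D) := FF.deg_eq_finsum E
  have hle : LinearMap.range (resMap ν D) ≤ sec (E - Finsupp.single Q₀ 1) := by
    rintro _ ⟨s, rfl⟩ Q
    have hu := (h1.cart D).unit (ν.pt_mem Q) ν.gen_mem (ν.pt_le Q)
    have h3 := s.2 _ (ν.pt_mem Q)
    have h4 : s.1 * S.lb D (ν.pt Q) =
        s.1 * S.lb D ν.gen * (S.lb D (ν.pt Q) / S.lb D ν.gen) := by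
      have := (h1.cart D).ne ν.gen_mem
      field_simp
    have h5 : Q.Ge (Finsupp.single Q₀ (1 : ℤ) Q) (ν.ev (s.1 * S.lb D (ν.pt Q))) := by
      have h7 := ν.pt_reg Q ⟨_, ν.pt_le Q h3⟩ h3
      rw [ν.ev_eq, evO_of_mem _ (ν.pt_le Q h3), Finsupp.single_apply]
      split_ifs with e
      · subst e
        exact Q₀.ge1_iff.2 (h7.lt_of_ne fun e => hQ s.1 s.2 (ν.pt_loc Q₀ _ h3 e))
      · exact Q.ge0_iff.2 h7
    rw [h4, ev_mul ν (s.2 _ ν.gen_mem) hu.mem] at h5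
    refine Place.Ge.of_mul (evO_ne ν.ρ hu) ?_
    have h6 : -(E - Finsupp.single Q₀ 1 : Divisor k ν.L) Q +
        Q.ord (evO ν.gen ν.ρ (S.lb D (ν.pt Q) / S.lb D ν.gen)) = Finsupp.single Q₀ (1 : ℤ) Q := by
      rw [Finsupp.sub_apply, neg_sub]
      exact sub_add_cancel _ _
    rw [h6]
    exact h5
  have h7 : Module.finrank k (LinearMap.range (resMap ν D)) ≤ h0 (E - Finsupp.single Q₀ 1) :=
    Submodule.finrank_mono hle
  have h8 : deg (E - Finsupp.single Q₀ 1) = deg E - 1 := by rw [FF.deg_sub, FF.deg_single]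
  have := FF.h0_le_deg (D := E - Finsupp.single Q₀ 1) (by omega)
  omega

end RsaA

theorem rsa_stmt : RsaStmt := by
  intro k M I κ _ _ _ _ _ _ _ p h _ _ c φ P hP D hD hh O hO hle
  have h1 := h.all.a1
  obtain ⟨ν, hν, hn, -⟩ := h1.cur P hP.2.1
  have h3 := ker_resMap h.all.s h.all.a2 hP ν hν D
  have h4 := h.all.s.deg c φ P hP ν hν D
  rw [hn, Nat.cast_one, one_mul] at h4
  by_contra hc
  push Not at hc
  by_cases e : O = ν.gen
  · subst e
    have h5 : LinearMap.range (resMap ν D) = ⊥ := by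
      rw [LinearMap.range_eq_bot]
      ext s
      have m := s.2 _ ν.gen_mem
      exact (ev_eq_zero ν m).2 ⟨m, hc s.1 s.2⟩
    rw [h5, finrank_bot] at h3
    omega
  · obtain ⟨Q, rfl⟩ := h1.pt ν O hO (hν ▸ hle) e
    have := RsaA.range_le h1 ν D (by omega) Q hc
    omega

end Pool.Agent.MP_20d318_ag.AM.Cb

end

section


set_option autoImplicit false
set_option linter.unusedSectionVars false

namespace Pool.Agent.MP_20d318_ag.AM.Cb

open Pool.Agent.MP_fd6584_ag.Fn Pool.Agent.CBk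
open Pool.Agent.MP_fd6584_ag.AG hiding deg_inv deg_congr deg_of_unit deg_mul deg_prod deg_zpow
  deg_eq_zero deg_nonneg deg_div deg_pow
open Pool.Agent.MP_20d318_ag.CB Pool.Agent.MP_20d318_ag.CB.P
open Pool.Agent.MP_fd6584_ag.MV (LA LM S1L Is)

namespace SeaA

theorem chi_sub {I : Type} [Fintype I] {B : I → I → ℤ} (hs : ∀ i j, B i j = B j i)
    (K D c : I → ℤ) (hc : ip B c c + ip B K c = -2) :
    chi2 B K D = chi2 B K (D - c) + 2 * ip B D c + 2 := by
  simp only [chi2, ip_sub_left, ip_sub_right]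
  rw [ip_comm hs c D]
  omega

end SeaA

theorem sea_stmt : SeaStmt := by
  intro k M I κ _ _ _ _ _ _ _ p h l t hS hR y hy c hc hor φ P hP O hO hOP
  have hs : ∀ i j, p.B i j = p.B j i := l.nc.sym
  have hd : Dl p.ld fun D => 2 * p.h0 D - chi2 p.B p.K D := by
    intro D c' hc' hD
    obtain ⟨φ', P', hP'⟩ := hc'.1
    have a := h.all.a3.res c' φ' P' hP' D
    have b := SeaA.chi_sub hs p.K D c' hc'.2
    have hD' : -1 ≤ ip p.B D c' := hD
    rw [max_eq_right (by omega)] at a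
    show 2 * p.h0 D - chi2 p.B p.K D ≤ 2 * p.h0 (D - c') - chi2 p.B p.K (D - c')
    omega
  have hn : ∀ n : ℕ, 0 ≤ 2 * p.h0 (n • y) - chi2 p.B p.K (n • y) := by
    intro n
    refine sub_nonneg.2 (h.all.a4.rr2 _ fun he => ?_)
    have a : 0 ≤ ip p.B p.h (p.K - n • y) :=
      l.lb.efn p.h (fun c' hc' => (l.nc.hpos c' hc').le) _ he
    have b : 0 ≤ ip p.B y p.h := l.lb.efn y hy.1 _ l.nc.heff
    have e : ip p.B p.h p.K < 0 := l.lb.hK
    rw [ip_sub_right, ip_nsmul_right, ip_comm hs p.h y] at a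
    have := mul_nonneg (Int.natCast_nonneg n) b
    omega
  obtain ⟨n, n0, hle⟩ := hS _ hd y hy hn c hc hor
  have hle' : 2 * p.h0 (n • y - c) - chi2 p.B p.K (n • y - c) ≤
      2 * p.h0 (n • y) - chi2 p.B p.K (n • y) := hle
  have b := SeaA.chi_sub hs p.K (n • y) c hc.2
  have y0 : 0 ≤ ip p.B (n • y) c := by
    rw [ip_nsmul_left]
    exact mul_nonneg (Int.natCast_nonneg n) (hy.1 c hc.1)
  obtain ⟨s, s1, s2⟩ := hR c φ P hP (n • y) y0 (by omega) O hO hOP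
  exact ⟨n, n0, s, s1, s2⟩

end Pool.Agent.MP_20d318_ag.AM.Cb

end

section


set_option autoImplicit false
set_option linter.unusedSectionVars false

namespace Pool.Agent.MP_20d318_ag.AM.Cb

open Pool.Agent.MP_fd6584_ag.Fn Pool.Agent.CBk
open Pool.Agent.MP_fd6584_ag.AG hiding deg_inv deg_congr deg_of_unit deg_mul deg_prod deg_zpow
  deg_eq_zero deg_nonneg deg_div deg_pow
open Pool.Agent.MP_20d318_ag.CB Pool.Agent.MP_20d318_ag.CB.P
open Pool.Agent.MP_fd6584_ag.MV (LA LM S1L Is)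

namespace SemA

theorem spl {ι κ : Type} [Fintype ι] [Fintype κ] {Λ : Ld ι κ} (l : CC.B0 Λ) {y : ι → ℤ} (hy : Λ.Nef y)
    {N : ι → ℤ} (hN : N ∈ AddSubmonoid.closure (Ra Λ)) :
    ∃ E ∈ AddSubmonoid.closure (Nu Λ y), ∃ j : ℕ, Λ.Nef (N - E + j • y) := by
  induction hN using AddSubmonoid.closure_induction with
  | mem c hc =>
    rcases (hy c hc.1).lt_or_eq with q | q
    · refine ⟨0, zero_mem _, (ip Λ.B c c).natAbs, fun c' hc' => ?_⟩
      rw [sub_zero, ip_add_left, ip_nsmul_left]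
      rcases eq_or_ne c c' with rfl | e
      · have := neg_abs_le (ip Λ.B c c)
        rw [Int.natCast_natAbs]
        nlinarith [abs_nonneg (ip Λ.B c c)]
      · exact add_nonneg (l.nc.pos c hc.1 c' hc' e) (mul_nonneg (Nat.cast_nonneg _) (hy c' hc'))
    · exact ⟨c, AddSubmonoid.subset_closure ⟨hc, q.symm⟩, 0, fun c' _ => by
        rw [sub_self, zero_smul, add_zero, ip_zero_left]⟩
  | zero => exact ⟨0, zero_mem _, 0, fun c' _ => by rw [sub_self, zero_smul, add_zero, ip_zero_left]⟩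
  | add a b _ _ ha hb =>
    obtain ⟨E, e1, j, e2⟩ := ha
    obtain ⟨E', e3, j', e4⟩ := hb
    refine ⟨E + E', add_mem e1 e3, j + j', fun c hc => ?_⟩
    rw [show a + b - (E + E') + (j + j') • y = a - E + j • y + (b - E' + j' • y) by
      rw [add_smul]; abel, ip_add_left]
    exact add_nonneg (e2 c hc) (e4 c hc)

variable {k M I κ : Type} [Field k] [Field M] [Algebra k M] [Fintype I] [Fintype κ]
  {p : Pd k M I κ} {O : Subalgebra k M}

/-- A section that does not vanish at `O`. -/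
def Un (p : Pd k M I κ) (O : Subalgebra k M) (D : I → ℤ) : Prop :=
  ∃ s ∈ p.Sec D, IsU O (s * p.lb D O)

theorem un0 : Un p O 0 :=
  ⟨1, fun R _ => by rw [Sd.lb_zero, mul_one]; exact R.one_mem, by
    rw [Sd.lb_zero, mul_one]; exact isU_one⟩

theorem Un.add (h : Pair0 p) (hO : O ∈ p.T) {D D' : I → ℤ} (a : Un p O D) (b : Un p O D') :
    Un p O (D + D') := by
  obtain ⟨s, s1, s2⟩ := a
  obtain ⟨t, t1, t2⟩ := b
  refine ⟨s * t, h.all.a2.mul _ _ s s1 t t1, ?_⟩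
  rw [Sd.lb_add _ (h.all.a1.gne O hO), mul_mul_mul_comm]
  exact s2.mul t2

theorem Un.nsmul (h : Pair0 p) (hO : O ∈ p.T) {D : I → ℤ} (a : Un p O D) (n : ℕ) :
    Un p O (n • D) := by
  induction n with
  | zero => rw [zero_smul]; exact un0
  | succ n ih => rw [succ_nsmul]; exact ih.add h hO a

theorem alt (h : Pair0 p) (hO : O ∈ p.T) {A : Set (I → ℤ)} (hA : A ⊆ p.PP) {E : I → ℤ}
    (hE : E ∈ AddSubmonoid.closure A) :
    Un p O E ∨ ∃ c ∈ A, ∃ φ P, p.Prm c φ P ∧ O ≤ plO P := by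
  induction hE using AddSubmonoid.closure_induction with
  | mem c hc =>
    obtain ⟨φ, P, hP⟩ := hA hc
    have s := h.all.a1.pmem c φ P hP
    exact (isU_or_mx (s O hO)).imp (fun u => ⟨φ, s, u⟩) fun u =>
      ⟨c, hc, φ, P, hP, (h.all.a1.pmx c φ P hP O hO).1 u⟩
  | zero => exact Or.inl un0
  | add a b _ _ ha hb =>
    exact ha.elim (fun u => hb.imp_left fun v => u.add h hO v) Or.inr

end SemA

open SemA

theorem sem_stmt : SemStmt := by
  intro k M I κ _ _ _ _ _ _ _ p h l _ big sea y hy O hO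
  by_cases c0 : ∃ c ∈ Nu p.ld y, ∃ φ P, p.Prm c φ P ∧ O ≤ plO P
  · obtain ⟨c, hc, φ, P, hP, hle⟩ := c0
    exact sea y hy c hc.1 (Or.inl hc.2) φ P hP O hO hle
  obtain ⟨m, n, m0, n0, hN⟩ := big y hy p.ld.h
  obtain ⟨E, e1, j, e2⟩ := spl l hy.1 hN
  have uE := (alt h hO (fun c hc => hc.1.1) e1).resolve_right c0
  obtain ⟨Z, hZ⟩ : ∃ Z, Z = m • y - n • p.ld.h - E + j • y := ⟨_, rfl⟩
  rw [← hZ] at e2
  have n1 : (0 : ℤ) < n := Nat.cast_pos.2 n0
  have ps : ∀ c ∈ p.ld.P, 0 < ip p.ld.B (n • p.ld.h + Z) c := fun c hc => by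
    rw [ip_add_left, ip_nsmul_left]
    exact add_pos_of_pos_of_nonneg (mul_pos n1 (l.nc.hpos c hc)) (e2 c hc)
  have nf : p.ld.Nef (n • p.ld.h + Z) := fun c hc => (ps c hc).le
  have nb : NB p.ld (n • p.ld.h + Z) := by
    refine ⟨nf, ?_⟩
    have ef := (l.lb.ne _ nf).2
    have a1 := l.lb.hef _ ef fun e => by
      have := ps _ (l.nc.memC p.ld.k0)
      rw [e, ip_zero_left] at this
      exact this.false
    have a2 := l.lb.efn Z e2 _ ef
    rw [ip_add_left, ip_nsmul_left]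
    exact add_pos_of_pos_of_nonneg (mul_pos n1 a1) a2
  obtain ⟨a, a0, ua⟩ : SeAt p (n • p.ld.h + Z) O := by
    obtain ⟨m', n', m1, -, hN'⟩ := big _ nb 0
    rw [smul_zero, sub_zero] at hN'
    rcases alt h hO (fun c hc => hc.1) hN' with u | ⟨c, hc, φ, P, hP, hle⟩
    · exact ⟨m', m1, u⟩
    · exact sea _ nb c hc (Or.inr ps) φ P hP O hO hle
  have u := Un.add h hO ua (uE.nsmul h hO a)
  rw [← smul_add, show n • p.ld.h + Z + E = (m + j) • y by rw [hZ, add_smul]; abel,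
    smul_smul] at u
  exact ⟨a * (m + j), Nat.mul_pos a0 (by omega), u⟩

end Pool.Agent.MP_20d318_ag.AM.Cb

end

section


set_option autoImplicit false
set_option linter.unusedSectionVars false

namespace Pool.Agent.MP_20d318_ag.AM.Cb

open Pool.Agent.MP_fd6584_ag.Fn Pool.Agent.CBk
open Pool.Agent.MP_fd6584_ag.AG hiding deg_inv deg_congr deg_of_unit deg_mul deg_prod deg_zpow
  deg_eq_zero deg_nonneg deg_div deg_pow
open Pool.Agent.MP_20d318_ag.CB Pool.Agent.MP_20d318_ag.CB.P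
open Pool.Agent.MP_fd6584_ag.MV (LA LI mem_LI)
open Pool.Agent.MP_20d318_ag.Lat (cone subset_cone le_on_cone)

namespace FgbA

section lat

variable {ι κ : Type} [Fintype ι] [Fintype κ] {Λ : Ld ι κ} {T : Set (ι → ℤ)}

theorem nefs (sol : SolStmt.{0}) (l : CC.B0 Λ) (hT : T ⊆ Λ.P) (hf : T.Finite) :
    ∃ Y : Set (ι → ℤ), Y.Finite ∧ (∀ y ∈ Y, Λ.Nef y) ∧ ∀ D ∈ AddSubmonoid.closure T,
      (∀ c ∈ T, 0 ≤ ip Λ.B D c) → ∃ m : ℕ, 0 < m ∧ m • D ∈ AddSubmonoid.closure Y := by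
  obtain ⟨R, h1, h2⟩ := MP_fd6584_ag.MV.rp_cut Λ.B (rp_fin (L := LI ι) (hf.image toR) (by
    rintro _ ⟨c, -, rfl⟩
    exact mem_LI.2 ⟨c, rfl⟩)) hf
  have h3 : toR '' (toR ⁻¹' (R : Set (ι → ℝ))) = R :=
    Set.image_preimage_eq_of_subset fun x hx => mem_LI.1 (h1 hx)
  refine ⟨toR ⁻¹' (R : Set (ι → ℝ)), R.finite_toSet.preimage fun _ _ _ _ => toR_inj,
    fun y hy c hc => ?_, fun D hD h => sol_int sol ?_⟩
  · obtain ⟨a, b⟩ := h2.le (subset_cone _ hy)
    have : (0 : ℝ) ≤ ip Λ.B (toR y) (toR c) := by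
      by_cases q : c ∈ T
      · exact b c q
      · refine le_on_cone (f := 0) (g := MP_fd6584_ag.MV.ipL Λ.B (toR c)) ?_ _ a
        rintro _ ⟨t, ht, rfl⟩
        rw [MP_fd6584_ag.MV.ipL_apply, ip_toR, LinearMap.zero_apply]
        exact Int.cast_nonneg (l.nc.pos t (hT ht) c hc fun e => q (e ▸ ht))
    rw [ip_toR] at this
    exact_mod_cast this
  · rw [h3, h2]
    refine ⟨closure_sub ?_, fun c hc => by rw [ip_toR]; exact Int.cast_nonneg (h c hc)⟩
    exact (AddMonoidHom.map_mclosure (⟨⟨toR, toR_zero⟩, toR_add⟩ : (ι → ℤ) →+ ι → ℝ) T).le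
      ⟨D, hD, rfl⟩

theorem drop (l : CC.B0 Λ) (hT : T ⊆ Λ.P) {c D : ι → ℤ} (hc : c ∈ Λ.P)
    (hD : D ∈ AddSubmonoid.closure T) : 0 ≤ ip Λ.B D c ∨ D - c ∈ AddSubmonoid.closure T := by
  induction hD using AddSubmonoid.closure_induction with
  | mem x hx =>
    rcases eq_or_ne x c with rfl | q
    · exact Or.inr (by rw [sub_self]; exact zero_mem _)
    · exact Or.inl (l.nc.pos x (hT hx) c hc q)
  | zero => exact Or.inl (ip_zero_left c).ge
  | add x y hx hy a b =>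
    rcases a with a | a
    · rcases b with b | b
      · exact Or.inl (by rw [ip_add_left]; exact add_nonneg a b)
      · exact Or.inr (by rw [add_sub_assoc]; exact add_mem hx b)
    · exact Or.inr (by rw [add_sub_right_comm]; exact add_mem a hy)

end lat

variable {k M I J : Type} [Field k] [Field M] [Algebra k M] [Fintype I] [Fintype J]
  {S : Sd k M I} {d : J → Subalgebra k M → M} {D D' : I → ℤ} {t t' : M} {O V : Subalgebra k M}

variable (S d) in
/-- monomials -/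
def Mo (D : I → ℤ) (t : M) : Prop := ∃ a : J → ℕ, ∀ O ∈ S.T, ∏ j, d j O ^ a j = t * S.lb D O

theorem lb_nsmul (m : ℕ) : S.lb (m • D) O = S.lb D O ^ m := by
  rw [← natCast_zsmul, S.lb_zsmul, zpow_natCast]

theorem Mo.mul (h : A1 S) (a : Mo S d D t) (b : Mo S d D' t') : Mo S d (D + D') (t * t') := by
  obtain ⟨a, ha⟩ := a
  obtain ⟨b, hb⟩ := b
  refine ⟨a + b, fun O hO => ?_⟩
  simp only [Pi.add_apply, pow_add, Finset.prod_mul_distrib]
  rw [ha O hO, hb O hO, S.lb_add (h.gne O hO), mul_mul_mul_comm]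

theorem Mo.pow (a : Mo S d D t) (m : ℕ) : Mo S d (m • D) (t ^ m) := by
  obtain ⟨a, ha⟩ := a
  refine ⟨fun j => a j * m, fun O hO => ?_⟩
  simp only [pow_mul, Finset.prod_pow]
  rw [ha O hO, lb_nsmul, mul_pow]

theorem mo_one {j : J} (h : d j = fun O => t * S.lb D O) : Mo S d D t := by
  classical
  refine ⟨Pi.single j 1, fun O _ => ?_⟩
  rw [Finset.prod_eq_single j (fun i _ q => by rw [Pi.single_eq_of_ne q, pow_zero]) (by simp),
    Pi.single_eq_same, pow_one, h]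

variable (S d) in
/-- a multiple has a monomial that is a unit -/
def Go (O : Subalgebra k M) (D : I → ℤ) : Prop :=
  ∃ (m : ℕ) (t : M), 0 < m ∧ Mo S d (m • D) t ∧ IsU O (t * S.lb (m • D) O)

theorem go_cl (h : A1 S) (hO : O ∈ S.T) {Y : Set (I → ℤ)} (hY : ∀ y ∈ Y, Go S d O y)
    (hD : D ∈ AddSubmonoid.closure Y) : Go S d O D := by
  induction hD using AddSubmonoid.closure_induction with
  | mem x hx => exact hY x hx
  | zero =>
    refine ⟨1, 1, one_pos, ⟨0, fun O _ => ?_⟩, ?_⟩ <;> rw [smul_zero, S.lb_zero, one_mul]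
    · simp
    · exact isU_one
  | add x y _ _ a b =>
    obtain ⟨m, t, a1, a2, a3⟩ := a
    obtain ⟨n, u, b1, b2, b3⟩ := b
    have e : (m * n) • (x + y) = n • m • x + m • n • y := by
      rw [smul_add, smul_smul, smul_smul, mul_comm n m]
    refine ⟨m * n, t ^ n * u ^ m, mul_pos a1 b1, e ▸ (a2.pow n).mul h (b2.pow m), ?_⟩
    rw [e, S.lb_add (h.gne O hO), lb_nsmul n, lb_nsmul (D := n • y) m, mul_mul_mul_comm,
      ← mul_pow, ← mul_pow]
    exact (a3.pow n).mul (b3.pow m)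

theorem mon_go (h : A1 S) (hO : O ∈ S.T) (hV : O ≤ V) {n : ℕ} (hn : 0 < n) (g : Go S d O (n • D))
    {φ : M} (hφ : φ ∈ S.Sec D) (h0 : φ ≠ 0) : Mon S.T d V (S.lb D) φ := by
  obtain ⟨m, t, a1, ⟨a, a2⟩, a3⟩ := g
  rw [smul_smul] at a2 a3
  have t0 : t ≠ 0 := left_ne_zero_of_mul a3.1
  refine ⟨m * n, a, φ ^ (m * n) / t, mul_pos a1 hn, hV ?_, fun R hR => ?_⟩
  · have := a3.div_mem (O.pow_mem (hφ O hO) (m * n))
    rwa [lb_nsmul, mul_pow, mul_div_mul_right _ _ (pow_ne_zero _ (S.lb_ne (h.gne O hO) D))] at this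
  · rw [a2 R hR, lb_nsmul, ← mul_assoc, div_mul_cancel₀ _ t0, ← mul_pow,
      div_self (pow_ne_zero _ (mul_ne_zero h0 (S.lb_ne (h.gne R hR) D)))]
    exact isU_one

theorem mon_up (h : A1 S) {φ : M} (a : Mo S d D' t) (b : Mon S.T d V (S.lb (D - D')) (φ / t)) :
    Mon S.T d V (S.lb D) φ := by
  obtain ⟨m, b, μ, b1, b2, b3⟩ := b
  obtain ⟨a, ha⟩ := a.pow m
  refine ⟨m, b + a, μ, b1, b2, fun O hO => ?_⟩
  refine Eq.subst (motive := IsU O) ?_ (b3 O hO)
  simp only [Pi.add_apply, pow_add, Finset.prod_mul_distrib]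
  rw [ha O hO, lb_nsmul, S.lb_sub (h.gne O hO), div_mul_div_comm, div_pow, div_div_eq_mul_div,
    mul_pow t, mul_assoc]

end FgbA

open FgbA in
theorem fgb_stmt : FgbStmt := by
  intro sol cpt k M I κ _ _ _ _ _ _ _ p h l t se T hT hf
  have a1 := h.all.a1
  obtain ⟨Y, y1, y2, y3⟩ := nefs sol l hT hf
  have ed : ∀ c, ∀ s ∈ p.Sec c, s ≠ 0 → Ed p.T fun O => s * p.lb c O :=
    fun c s a b => ⟨a1.pcart c s b, a⟩
  choose! F f1 f2 f3 using fun (y : I → ℤ) (hy : y ∈ Y) => cpt k M p.T a1.nice.toFine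
    {e | ∃ (m : ℕ) (s : M), 0 < m ∧ s ∈ p.Sec (m • y) ∧ s ≠ 0 ∧ e = fun O => s * p.lb (m • y) O}
    (by rintro _ ⟨m, s, -, -, b, rfl⟩; exact a1.pcart _ s b) fun O hO =>
      let ⟨m, a, s, b, c⟩ := se y (y2 y hy) O hO
      ⟨_, ⟨m, s, a, b, left_ne_zero_of_mul c.1, rfl⟩, c⟩
  choose! φ hφ using fun (c : I → ℤ) (hc : c ∈ T) => (hT hc : ∃ φ P, p.Prm c φ P)
  have fin : ((⋃ y ∈ Y, F y) ∪ (fun c O => φ c * p.lb c O) '' T).Finite :=
    (y1.biUnion f2).union (hf.image _)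
  let this := fin.fintype
  refine ⟨_, this, Subtype.val, ?_, ?_⟩
  · rintro ⟨e, he | ⟨c, hc, rfl⟩⟩
    · obtain ⟨y, hy, he⟩ := Set.mem_iUnion₂.1 he
      obtain ⟨m, s, -, a, b, rfl⟩ := f1 y hy he
      exact ed _ s a b
    · obtain ⟨P, hP⟩ := hφ c hc
      exact ed c _ (a1.pmem c _ P hP) hP.1
  have h0 : ∀ D ∈ AddSubmonoid.closure T, 0 ≤ ip p.B p.h D := fun D hD =>
    l.lb.efn _ (fun c hc => (a1.hpos c hc).le) D (AddSubmonoid.closure_mono hT hD)
  suffices ∀ n : ℕ, ∀ D ∈ AddSubmonoid.closure T, ip p.B p.h D < n → ∀ ψ ∈ p.Sec D, ψ ≠ 0 →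
      ∀ V, IsVal V → Mon p.T (J := ↑((⋃ y ∈ Y, F y) ∪ (fun c O => φ c * p.lb c O) '' T))
        Subtype.val V (p.lb D) ψ from
    fun D hD => this ((ip p.B p.h D).toNat + 1) D hD (by omega)
  intro n
  induction n with
  | zero => exact fun D hD q => absurd (h0 D hD) (by omega)
  | succ n ih =>
    intro D hD q ψ s1 s2 V hV
    by_cases r : ∀ c ∈ T, 0 ≤ ip p.B D c
    · obtain ⟨m, m1, m2⟩ := y3 D hD r
      obtain ⟨O, hO, d⟩ := a1.nice.cpl V hV
      refine mon_go a1 hO d.1 m1 (go_cl a1 hO (fun y hy => ?_) m2) s1 s2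
      obtain ⟨e, e1, e2⟩ := f3 y hy O hO
      obtain ⟨m, s, a, -, -, rfl⟩ := f1 y hy e1
      exact ⟨m, s, a, mo_one (j := ⟨_, Or.inl (Set.mem_biUnion hy e1)⟩) rfl, e2⟩
    · push Not at r
      obtain ⟨c, hc, r⟩ := r
      obtain ⟨P, hP⟩ := hφ c hc
      refine mon_up a1 (mo_one (j := ⟨_, Or.inr ⟨c, hc, rfl⟩⟩) rfl)
        (ih (D - c) ((drop l hT (hT hc) hD).resolve_left r.not_ge) ?_ _ (t.van c _ P hP D ψ s1 r)
          (div_ne_zero s2 hP.1) V hV)
      have := a1.hpos c (hT hc)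
      rw [ip_sub_right]
      omega

end Pool.Agent.MP_20d318_ag.AM.Cb

end

section


set_option autoImplicit false
set_option linter.unusedSectionVars false

namespace Pool.Agent.MP_20d318_ag.AM.Cb

open Pool.Agent.MP_fd6584_ag.Fn Pool.Agent.CBk
open Pool.Agent.MP_fd6584_ag.AG hiding deg_inv deg_congr deg_of_unit deg_mul deg_prod deg_zpow
  deg_eq_zero deg_nonneg deg_div deg_pow
open Pool.Agent.MP_20d318_ag.CB Pool.Agent.MP_20d318_ag.CB.P
open Pool.Agent.MP_20d318_ag.CH (lv0 ldN Iso cl cl_val n1_ext)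
open Pool.Agent.MP_20d318_ag.Lat (cone subset_cone isCone_cone)

theorem BseA.key {k M I κ : Type} [Field k] [IsAlgClosed k] [Field M] [Algebra k M] [Fintype I]
    [Fintype κ] {p : Pd k M I κ} {ψ : (I → ℝ) ≃ₗ[ℝ] N1 (lv0 p).Y} (h : Pair0 p)
    (hν : ∀ (ν : Curve (lv0 p).Y) x, ν.lin (ψ x) = ip p.B x (toR (p.zz ν)))
    {f : Subalgebra k M → M} (hf : IsCart (lv0 p).Y f) : ∃ c φ, φ ≠ 0 ∧
      (∀ O ∈ p.T, IsU O (φ * p.lb c O / f O)) ∧ ψ (toR c) = cl (lv0 p).Y f := by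
  obtain ⟨c, φ, a, b⟩ := h.all.a2.pic f hf
  exact ⟨c, φ, a, b, .trans (n1_ext fun ν => by
    rw [hν, ip_toR]
    exact (congrArg _ (h.all.a1.zzd ν c)).symm.trans (cl_val (h.all.a1.cart c) ν).symm)
    (cl_lin h.all.a1.nice.toGood (h.all.a1.cart c) hf b)⟩

theorem bse_stmt : BseStmt := by
  intro s k M I κ _ _ _ _ _ _ _ p h _ _ G ψ i hν E F
  refine ⟨fun f hf h0 => ?_, fun R fin _ ef => ?_, ?_⟩
  · obtain ⟨c, φ, -, b, q⟩ := BseA.key h hν hf
    obtain rfl : c = 0 :=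
      toR_inj ((ψ.injective ((q.trans h0).trans (map_zero ψ).symm)).trans toR_zero.symm)
    refine ⟨1, φ⁻¹, one_pos, fun O hO => ?_⟩
    have := (b O hO).inv
    rwa [Sd.lb_zero, mul_one, inv_div, div_eq_inv_mul, ← pow_one (f O)] at this
  · obtain ⟨T, T1, T2, T3⟩ := E.fin (ψ.symm '' R) (fin.image _) (by
      rintro _ ⟨x, hx, rfl⟩
      exact (i.Ef _).1 ((ψ.apply_symm_apply x).symm ▸ ef hx))
    obtain ⟨J, j, d, d1, d2⟩ := F T T1 T2
    refine ⟨J, j, d, fg_iff.2 ⟨d1, fun e he hs V hV => ?_⟩⟩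
    obtain ⟨c, φ, a, b, q⟩ := BseA.key h hν he.1
    have z : ∀ n, ψ.symm ((lv0 p).nd.c n) = toR (p.ld.C n) := fun n =>
      ψ.symm_apply_eq.2 (i.c n).symm
    obtain ⟨m, m0, m1⟩ := sol_int s (T3 (a := toR c) ⟨(i.Ef _).1 (q ▸ he.ef), by
      rw [← ψ.symm_apply_apply (toR c), q]
      refine ((isCone_cone _).preimage ψ.symm.toLinearMap).cone_subset ?_ hs
      rintro x (hx | ⟨n, rfl⟩ | ⟨n, rfl⟩)
      · exact subset_cone _ (.inl ⟨x, hx, rfl⟩)
      · exact subset_cone _ (.inr (.inl ⟨n, (z n).symm⟩))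
      · exact subset_cone _ (.inr (.inr ⟨n, ((map_neg ψ.symm _).trans (z n ▸ rfl)).symm⟩))⟩)
    have l : ∀ O, φ ^ m * p.lb (m • c) O = (φ * p.lb c O) ^ m := fun O => by
      rw [← natCast_zsmul, Sd.lb_zsmul, zpow_natCast, mul_pow]
    obtain ⟨n, w, μ, n0, μ1, μ2⟩ := d2 _ m1 (φ ^ m) (fun O hO => by
      obtain ⟨u, v, -⟩ := b O hO
      rw [l, ← div_mul_cancel₀ (φ * p.lb c O) (div_ne_zero_iff.1 u).2]
      exact O.pow_mem (O.mul_mem v (he.2 O hO)) m) (pow_ne_zero _ a) V hV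
    refine ⟨m * n, w, μ, mul_pos m0 n0, μ1, fun O hO => ?_⟩
    have := (μ2 O hO).mul ((b O hO).pow (m * n))
    rwa [l, ← pow_mul, div_pow, div_mul_div_cancel₀
      (pow_ne_zero _ (div_ne_zero_iff.1 (b O hO).1).1), ← one_mul (e O)] at this
  · obtain ⟨T, T1, T2, T3⟩ := E.cov
    refine ⟨ψ '' (toR '' T), (T2.image _).image _, ?_, ?_, fun x hx => ?_⟩
    · rintro _ ⟨_, ⟨c, -, rfl⟩, rfl⟩
      exact (i.Λ _).2 ⟨c, rfl⟩
    · rintro _ ⟨_, ⟨c, hc, rfl⟩, rfl⟩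
      exact (i.Ef _).2 (subset_cone _ ⟨c, T1 hc, rfl⟩)
    · obtain ⟨y, rfl⟩ := ψ.surjective x
      obtain ⟨ρ, r1, r2⟩ := T3 y ((i.Ef _).1 hx)
      obtain ⟨g, g1, g2⟩ := i.G (CH.actR ρ) ⟨ρ, r1, rfl⟩
      exact ⟨g, g1, g2 y ▸ (CH.cone_map ψ.toLinearMap _).ge ⟨_, r2, rfl⟩⟩

end Pool.Agent.MP_20d318_ag.AM.Cb

end

section


set_option autoImplicit false
set_option linter.unusedSectionVars false

namespace Pool.Agent.MP_20d318_ag.AM.Cb

open Pool.Agent.MP_fd6584_ag.Fn Pool.Agent.CBk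
open Pool.Agent.MP_fd6584_ag.AG hiding deg_inv deg_congr deg_of_unit deg_mul deg_prod deg_zpow
  deg_eq_zero deg_nonneg deg_div deg_pow
open Pool.Agent.MP_20d318_ag.CB Pool.Agent.MP_20d318_ag.CB.P
open Pool.Agent.MP_fd6584_ag.MV (LA LM S1L Is)

namespace SqzA

variable {k M I κ : Type} [Field k] [Field M] [Algebra k M] [Fintype I] [Fintype κ]
  {p : Pd k M I κ}

/-- Two independent sections. -/
structure Two (p : Pd k M I κ) (D : I → ℤ) (s t : M) : Prop where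
  hs : s ∈ p.Sec D
  ht : t ∈ p.Sec D
  ne : s ≠ 0
  ind : ∀ a : k, t ≠ a • s

/-- No prime divisor is contained in both divisors. -/
def Cop (p : Pd k M I κ) (D : I → ℤ) (s t : M) : Prop := ∀ P : Place k M, plO P ∈ p.T →
  s * p.lb D (plO P) ∈ mx (plO P) → IsU (plO P) (t * p.lb D (plO P))

theorem h_nonneg (hL : CC.B0 p.ld) {D : I → ℤ} (hD : D ∈ p.Ef) : 0 ≤ ip p.B p.h D :=
  hL.lb.efn p.h (fun c hc => (hL.nc.hpos c hc).le) D hD

theorem mov (hP : Pair0 p) (hL : CC.B0 p.ld) (n : ℕ) : ∀ D s t, ip p.B p.h D < n → Two p D s t →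
    ∃ D' s' t', D - D' ∈ p.Ef ∧ Two p D' s' t' ∧ Cop p D' s' t' := by
  induction n with
  | zero =>
    intro D s t hn h
    have := h_nonneg hL (hP.all.a2.eff1 D s h.hs h.ne)
    simp only [Nat.cast_zero] at hn
    omega
  | succ n ih =>
    intro D s t hn h
    by_cases hc : Cop p D s t
    · exact ⟨D, s, t, by rw [sub_self]; exact p.Ef.zero_mem, h, hc⟩
    · unfold Cop at hc
      push Not at hc
      obtain ⟨P, hT, h1, h2⟩ := hc
      obtain ⟨φ, hφ⟩ := hP.all.a2.cl P hT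
      have hm : p.cl P ∈ p.PP := ⟨φ, P, hφ⟩
      have hp := hP.all.a1.hpos _ hm
      have a1 := hP.all.a2.sub _ φ P hφ D s h.hs h1
      have a2 := hP.all.a2.sub _ φ P hφ D t h.ht ⟨h.ht _ hT, h2⟩
      have hlt : ip p.B p.h (D - p.cl P) < n := by
        rw [ip_sub_right]
        push_cast at hn
        omega
      obtain ⟨D', s', t', e, r⟩ := ih (D - p.cl P) (s / φ) (t / φ) hlt ⟨a1, a2, div_ne_zero h.ne hφ.1,
        fun a ha => h.ind a (by
          rw [← div_mul_cancel₀ t hφ.1, ha, smul_mul_assoc, div_mul_cancel₀ s hφ.1])⟩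
      refine ⟨D', s', t', ?_, r⟩
      have e2 : D - D' = D - p.cl P - D' + p.cl P := by abel
      rw [e2]
      exact p.Ef.add_mem e (AddSubmonoid.subset_closure hm)

theorem Two.ne_zero (hP : Pair0 p) {D : I → ℤ} {s t : M} (h : Two p D s t) : D ≠ 0 := by
  rintro rfl
  obtain ⟨a, ha⟩ := hP.all.a2.const s fun O hO => by
    have := h.hs O hO
    rwa [Sd.lb_zero, mul_one] at this
  obtain ⟨b, hb⟩ := hP.all.a2.const t fun O hO => by
    have := h.ht O hO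
    rwa [Sd.lb_zero, mul_one] at this
  have a0 : a ≠ 0 := by
    rintro rfl
    exact h.ne (by rw [ha, map_zero])
  refine h.ind (b / a) ?_
  rw [ha, hb, Algebra.smul_def, ← map_mul, div_mul_cancel₀ b a0]

theorem Two.nef (hP : Pair0 p) {D : I → ℤ} {s t : M} (h : Two p D s t) (c : Cop p D s t) :
    p.ld.Nef D := by
  rintro c' ⟨φ, P, hφ⟩
  by_cases u : IsU (plO P) (s * p.lb D (plO P))
  · exact (hP.all.a2.nn _ φ P hφ D s h.hs u).1
  · exact (hP.all.a2.nn _ φ P hφ D t h.ht (c P hφ.2.1 ⟨h.hs _ hφ.2.1, u⟩)).1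

theorem Two.free (hP : Pair0 p) (hL : CC.B0 p.ld) (hT : CC.TA p.toSd) {D : I → ℤ} {s t : M}
    (h : Two p D s t) (c : Cop p D s t) (h0 : ip p.B D D = 0) {O : Subalgebra k M} (hO : O ∈ p.T) :
    ∃ u ∈ p.Sec D, IsU O (u * p.lb D O) := by
  by_cases u : IsU O (s * p.lb D O)
  · exact ⟨s, h.hs, u⟩
  · obtain ⟨P, hPT, hle, hm⟩ := hT.above D s h.hs h.ne O hO ⟨h.hs O hO, u⟩
    obtain ⟨φ, hφ⟩ := hP.all.a2.cl P hPT
    have e := hT.dvd _ φ P hφ D s h.hs h.ne hm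
    have e1 : 0 ≤ ip p.B D (D - p.cl P) := hL.lb.efn D (h.nef hP c) _ e
    rw [ip_sub_right, h0] at e1
    have e2 := hP.all.a2.nn _ φ P hφ D t h.ht (c P hPT hm)
    exact ⟨t, h.ht, e2.2.1 (by have := e2.1; omega) O hO hle⟩

/-- A free class proportional to a nef class of square zero that moves. -/
theorem exists_free (hP : Pair0 p) (hL : CC.B0 p.ld) (hT : CC.TA p.toSd) {w : I → ℤ} {s t : M}
    (hw : p.ld.Nef w) (h0 : ip p.B w w = 0) (h : Two p w s t) : ∃ D, 0 < ip p.B p.h D ∧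
      (∃ q : ℝ, toR D = q • toR w) ∧ ∀ O ∈ p.T, ∃ u ∈ p.Sec D, IsU O (u * p.lb D O) := by
  obtain ⟨D, s', t', e, r, c⟩ := mov hP hL ((ip p.B p.h w).toNat + 1) w s t (by push_cast; omega) h
  have hD : D ∈ p.Ef := hP.all.a2.eff1 D s' r.hs r.ne
  have e1 : 0 ≤ ip p.B w D := hL.lb.efn w hw D hD
  have e2 : 0 ≤ ip p.B w (w - D) := hL.lb.efn w hw _ e
  have e3 : 0 ≤ ip p.B D D := hL.lb.efn D (r.nef hP c) D hD
  rw [ip_sub_right, h0] at e2
  have e4 : ip p.B D w = 0 := by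
    rw [ip_comm hP.all.s.sym]
    omega
  have e5 := hL.hg.iso (toR w) (toR D) (by rw [ip_toR]; exact_mod_cast h0)
    (fun z => h.ne_zero hP (toR_inj (z.trans toR_zero.symm))) (by rw [ip_toR]; exact_mod_cast e4)
  rw [ip_toR] at e5
  have e6 : ip p.B D D ≤ 0 := by exact_mod_cast e5.1
  have e7 : ip p.B D D = 0 := le_antisymm e6 e3
  exact ⟨D, hL.lb.hef D hD (r.ne_zero hP), e5.2 (by exact_mod_cast e7),
    fun O hO => r.free hP hL hT c e7 hO⟩

theorem prop {B : I → I → ℤ} (h : I → ℤ) {y D : I → ℤ} {v : I → ℝ} {q q' : ℝ} (hy : toR y = q' • v)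
    (hD : toR D = q • v) : ip B h D • y = ip B h y • D := by
  apply toR_inj
  rw [toR_zsmul, toR_zsmul, ← ip_toR, ← ip_toR, hy, hD, ip_smul_right, ip_smul_right, smul_smul,
    smul_smul]
  congr 1
  ring

theorem seAt_of {y D : I → ℤ} {a b : ℤ} (ha : 0 < a) (hb : 0 ≤ b) (e : a • y = b • D)
    {O : Subalgebra k M} {u : M} (hu : u ∈ p.Sec D) (hU : IsU O (u * p.lb D O)) : SeAt p y O := by
  obtain ⟨m, rfl⟩ := Int.eq_ofNat_of_zero_le ha.le
  obtain ⟨n, rfl⟩ := Int.eq_ofNat_of_zero_le hb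
  have e' : m • y = (n : ℤ) • D := by rw [← e, natCast_zsmul]
  have f : ∀ R : Subalgebra k M, u ^ n * p.lb ((n : ℤ) • D) R = (u * p.lb D R) ^ n := fun R => by
    rw [Sd.lb_zsmul, zpow_natCast, mul_pow]
  refine ⟨m, by exact_mod_cast ha, u ^ n, ?_, ?_⟩
  · rw [e']
    intro R hR
    rw [f]
    exact R.pow_mem (hu R hR) n
  · rw [e', f]
    exact hU.pow n

end SqzA

open SqzA in
theorem sqz_stmt : SqzStmt := by
  intro k M I κ _ _ _ _ _ _ _ p hP hL hT y hy h0 O hO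
  have hE : y ∈ p.Ef := (hL.lb.ne y hy).2
  have hC : ∀ i, 0 ≤ ip p.B (p.C i) y := fun i => by
    rw [ip_comm hP.all.s.sym]
    exact hy _ (hL.nc.memC i)
  have hS : ∑ i, ip p.B (p.C i) y = -2 * ip p.B p.K y := hL.lb.sumK y
  have hN : 0 ≤ ∑ i, ip p.B (p.C i) y := Finset.sum_nonneg fun i _ => hC i
  have fin : ∀ (w : I → ℤ) (s t : M) (q : ℝ), p.ld.Nef w → ip p.B w w = 0 → Two p w s t →
      toR y = q • toR w → SeAt p y O := by
    intro w s t q hw w0 h hq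
    obtain ⟨D, d0, ⟨q', hq'⟩, hf⟩ := exists_free hP hL hT hw w0 h
    obtain ⟨u, hu, hU⟩ := hf O hO
    exact seAt_of d0 (h_nonneg hL hE) (prop p.h hq hq') hu hU
  by_cases hK : ip p.B p.K y = 0
  · classical
    by_cases y0 : y = 0
    · subst y0
      refine ⟨1, one_pos, 1, ?_, ?_⟩
      · intro R _
        rw [smul_zero, Sd.lb_zero, mul_one]
        exact R.one_mem
      · rw [smul_zero, Sd.lb_zero, mul_one]
        exact isU_one
    have hh : 0 < ip p.B p.h y := hL.lb.hef y hE y0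
    have hKy : y + p.K ∈ p.Ef := by
      refine (hP.all.a4.rr (y + p.K) ?_).resolve_right fun e => ?_
      · simp only [ip_add_left, ip_add_right]
        rw [h0, ip_comm hP.all.s.sym y p.K, hK]
        omega
      · have := h_nonneg hL e
        rw [ip_sub_right, ip_add_right] at this
        omega
    obtain ⟨a, ha, a0⟩ := hP.all.a2.eff2 y hE
    obtain ⟨a', ha', a0'⟩ := hP.all.a2.eff2 _ hKy
    have H : CC.Hf p ((2 : ℤ) • y) ∅ y a := ⟨ha, a0, by simp⟩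
    have H' : CC.Hf p ((2 : ℤ) • y) Finset.univ (y + p.K) a' := ⟨ha', a0', by
      rw [hP.sumC]
      module⟩
    refine fin _ _ _ (1 / 2) (fun c hc => ?_) (by rw [ip_smul_left, ip_smul_right, h0]; rfl)
      ⟨H.mem hP, H'.mem hP, H.hs_ne hP, fun c ec => ?_⟩ (by rw [toR_zsmul, smul_smul]; norm_num)
    · have : 0 ≤ ip p.B y c := hy c hc
      show 0 ≤ ip p.B ((2 : ℤ) • y) c
      rw [ip_smul_left]
      omega
    obtain ⟨P, hQ⟩ := hP.prm p.k0
    have c0 : c ≠ 0 := fun z => H'.hs_ne hP (by rw [ec, z, zero_smul])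
    have m1 : p.s p.k0 (plO P) ∈ mx (plO P) := (hP.all.a1.pmx _ _ P hQ _ hQ.2.1).2 le_rfl
    have hu : IsU (plO P) (∏ l ∈ Finset.univ.erase p.k0, p.s l (plO P)) := isU_prod fun l hl =>
      (isU_or_mx (CC.s_mem hP hQ.2.1 l)).resolve_right fun m =>
        Finset.ne_of_mem_erase hl (hP.one _ hQ.2.1 l p.k0 m m1)
    have g := hP.all.a1.gne _ hQ.2.1
    have s0 : p.s p.k0 (plO P) ≠ 0 := mul_ne_zero hQ.1 (p.lb_ne g _)
    have s1 : P.ord (p.s p.k0 (plO P)) = 1 := (hQ.2.2 P hQ.2.1).trans (if_pos rfl)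
    have e := congrArg P.ord (H'.fac hP hQ.2.1)
    rw [ec, smul_mul_assoc, P.ord_smul c0, H.fac hP hQ.2.1, Finset.prod_empty, mul_one, P.ord_pow,
      ← Finset.mul_prod_erase _ _ (Finset.mem_univ p.k0), P.ord_mul (pow_ne_zero 2
      (mul_ne_zero a0' (p.lb_ne g _))) (mul_ne_zero s0 hu.1), P.ord_pow, P.ord_mul s0 hu.1, s1,
      ((isU_plO' P).1 hu).2] at e
    omega
  · have hp : Even (ip p.B y y + ip p.B p.K y) := hL.nc.par y
    rw [h0, zero_add] at hp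
    obtain ⟨r, hr⟩ := hp
    have hne : p.K - y ∉ p.Ef := fun e => by
      have e1 : 0 ≤ ip p.B y (p.K - y) := hL.lb.efn y hy _ e
      rw [ip_sub_right, h0, ip_comm hP.all.s.sym] at e1
      omega
    have h2 := hP.all.a4.rr2 y hne
    unfold chi2 at h2
    obtain ⟨s, hs, s0⟩ := hP.all.a2.eff2 y hE
    obtain ⟨t, ht, hi⟩ := hT.h02 y (by omega) s
    exact fin y s t 1 hy h0 ⟨hs, ht, s0, hi⟩ (one_smul _ _).symm

end Pool.Agent.MP_20d318_ag.AM.Cb

end
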