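import Pool.Agent.MP_20d318_ag.AC.LSpec

/-! The decomposition of Zariski in the lattice of the surface. -/

set_option autoImplicit false
set_option linter.unusedSectionVars false

namespace Pool.Agent.MP_20d318_ag.AC

open Pool.Agent.MP_20d318_ag.CB
open Pool.Agent.MP_20d318_ag.CC (B0 C0 Gp GR)
open Pool.Agent.MP_20d318_ag.Lat (cone IsCone isCone_cone subset_cone cone_mono)

namespace ZarA

variable {ι κ : Type} [Fintype ι] [Fintype κ] {Λ : Ld ι κ} {A : Set (ι → ℤ)}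
  {π : (ι → ℝ) →ₗ[ℝ] ι → ℝ}

theorem cone_nonneg {B : ι → ι → ℤ} {u v : ι → ℝ} {R : Set (ι → ℤ)}
    (h : ∀ c ∈ R, 0 ≤ ip B u (toR c)) (hv : v ∈ cone (toR '' R)) : 0 ≤ ip B u v := by
  have k : IsCone {v | 0 ≤ ip B u v} :=
    ⟨(ip_zero_right u).ge, fun a ha b hb => by
      rw [Set.mem_ofPred_eq, ip_add_right]; exact add_nonneg ha hb,
      fun r hr a ha => by rw [Set.mem_ofPred_eq, ip_smul_right]; exact mul_nonneg hr ha⟩
  refine k.cone_subset ?_ hv
  rintro _ ⟨c, hc, rfl⟩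
  exact h c hc

theorem ef_cone {c : ι → ℤ} (h : c ∈ Λ.Ef) : toR c ∈ EC Λ := by
  induction h using AddSubmonoid.closure_induction with
  | mem c hc => exact subset_cone _ ⟨c, hc, rfl⟩
  | zero => rw [toR_zero]; exact (isCone_cone _).zero
  | add a b _ _ ha hb => rw [toR_add]; exact (isCone_cone _).add _ ha _ hb

theorem orth (h : St Λ A π) (v : ι → ℝ) {c : ι → ℤ} (hc : c ∈ A) : ip Λ.B (π v) (toR c) = 0 := by
  rw [h.adj, h.zero c hc, ip_zero_right]

theorem orth_span (h : St Λ A π) (v : ι → ℝ) {w : ι → ℝ}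
    (hw : w ∈ Submodule.span ℝ (toR '' A)) : ip Λ.B (π v) w = 0 := by
  induction hw using Submodule.span_induction with
  | mem w hw => obtain ⟨c, hc, rfl⟩ := hw; exact orth h v hc
  | zero => exact ip_zero_right _
  | add a b _ _ ha hb => rw [ip_add_right, ha, hb, add_zero]
  | smul r a _ ha => rw [ip_smul_right, ha, mul_zero]

theorem pc_mem (h : St Λ A π) {c : ι → ℤ} (hc : c ∈ Λ.P) : π (toR c) ∈ EC Λ := by
  by_cases k : c ∈ A
  · rw [h.zero c k]; exact (isCone_cone _).zero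
  · rw [← sub_add_cancel (π (toR c)) (toR c)]
    exact (isCone_cone _).add _ (cone_mono (Set.image_mono fun a ha => (h.sub ha).1) (h.up c hc k))
      _ (subset_cone _ ⟨c, hc, rfl⟩)

theorem map_ec (h : St Λ A π) {x : ι → ℝ} (hx : x ∈ EC Λ) : π x ∈ EC Λ := by
  refine ((isCone_cone (toR '' Λ.P)).preimage π).cone_subset ?_ hx
  rintro _ ⟨c, hc, rfl⟩
  exact pc_mem h hc

theorem pos (b : B0 Λ) (h : St Λ A π) {c c' : ι → ℤ} (hc : c ∈ Λ.P) (k : c ∉ A) (hc' : c' ∈ Λ.P)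
    (n : c' ≠ c) : 0 ≤ ip Λ.B (π (toR c)) (toR c') := by
  by_cases k' : c' ∈ A
  · exact (orth h _ k').ge
  · rw [← sub_add_cancel (π (toR c)) (toR c), ip_comm b.nc.sym, ip_add_right]
    refine add_nonneg (cone_nonneg (fun a ha => ?_) (h.up c hc k)) ?_
    · rw [ip_toR]
      exact_mod_cast b.nc.pos c' hc' a (h.sub ha).1 fun e => k' (e ▸ ha)
    · rw [ip_toR]
      exact_mod_cast b.nc.pos c' hc' c hc n

theorem start (Λ : Ld ι κ) : St Λ ∅ LinearMap.id where
  sub := Set.empty_subset _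
  adj _ _ := rfl
  zero _ h := h.elim
  spn v := by rw [LinearMap.id_apply, sub_self]; exact Submodule.zero_mem _
  up c _ _ := by rw [LinearMap.id_apply, sub_self]; exact (isCone_cone _).zero
  sq _ := le_rfl
  rat := ⟨1, one_pos, fun v => ⟨v, by rw [Nat.cast_one, one_smul, LinearMap.id_apply]⟩⟩

theorem maxi (b : B0 Λ) (c0 : C0 Λ) (z : Zs Λ) {x : ι → ℝ} (hx : x ∈ PE Λ) :
    ∃ A π, St Λ A π ∧ x - π x ∈ cone (toR '' A) ∧ π x ∈ Λ.NT := by
  obtain ⟨_, ⟨A, π, h, h1, rfl⟩, hm⟩ := (wellFounded_gt (α := Submodule ℝ (ι → ℝ))).has_min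
    {K | ∃ A π, St Λ A π ∧ x - π x ∈ cone (toR '' A) ∧ K = LinearMap.ker π}
    ⟨_, ∅, LinearMap.id, start Λ, by
      rw [LinearMap.id_apply, sub_self]; exact (isCone_cone _).zero, rfl⟩
  refine ⟨A, π, h, h1, c0.ct _ fun c hc hn => ?_⟩
  by_contra l
  rw [not_le] at l
  have k : c ∉ A := fun k => l.ne (orth h x k)
  have xd : ip Λ.B x (π (toR c)) < 0 := by rwa [← h.adj]
  have dc : ip Λ.B (π (toR c)) (toR c) < 0 := by
    by_contra m
    refine xd.not_ge (hx _ (fun c' hc' => ?_) (pc_mem h hc))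
    by_cases e : c' = c
    · rw [e]; exact not_lt.1 m
    · exact pos b h hc k hc' e
  have dd : ip Λ.B (π (toR c)) (π (toR c)) < 0 := by
    have := orth_span h (toR c) (h.spn (toR c))
    rw [ip_sub_right] at this
    linarith
  obtain ⟨π', h', e⟩ := z A π h c ⟨hc, hn⟩ k dd
  have sub : cone (toR '' A) ⊆ cone (toR '' insert c A) :=
    cone_mono (Set.image_mono (Set.subset_insert _ _))
  refine hm (LinearMap.ker π') ⟨_, π', h', ?_, rfl⟩ (lt_of_le_of_ne (fun v hv => ?_) fun q => ?_)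
  · rw [e, sub_sub_eq_add_sub, add_sub_right_comm]
    refine (isCone_cone _).add _ (sub h1) _
      ((isCone_cone _).smul _ (div_nonneg_of_nonpos xd.le dd.le) _ ?_)
    rw [← sub_add_cancel (π (toR c)) (toR c)]
    exact (isCone_cone _).add _ (sub (h.up c hc k)) _
      (subset_cone _ ⟨c, Set.mem_insert _ _, rfl⟩)
  · rw [LinearMap.mem_ker] at hv ⊢
    rw [e, ← h.adj v, hv, ip_zero_left, zero_div, zero_smul, sub_zero]
  · have a : toR c ∈ LinearMap.ker π' := h'.zero c (Set.mem_insert _ _)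
    rw [← q, LinearMap.mem_ker] at a
    rw [a, ip_zero_left] at dd
    exact dd.false

end ZarA

open ZarA in
theorem zar_stmt : ZarStmt := by
  intro ι κ _ _ Λ b c0 z x hx hx'
  obtain ⟨A, π, h, h1, h2⟩ := maxi b c0 z hx
  refine ⟨A, π x, π (toR Λ.h), h.sub, h1, h2, ?_, fun c hc => ?_, map_ec h (ef_cone b.nc.heff),
    fun e => ?_, fun c hc => ⟨orth h _ hc, orth h _ hc⟩⟩
  · rcases hx' with k | ⟨g, rfl⟩
    · exact map_ec h k
    · obtain ⟨m, hm, k⟩ := h.rat
      obtain ⟨w, hw⟩ := k g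
      have m0 : (0 : ℝ) < m := by exact_mod_cast hm
      have a : toR w ∈ Λ.NT := fun c hc => by
        rw [← hw, ip_smul_left]
        exact mul_nonneg m0.le (h2 c hc)
      rw [← inv_smul_smul₀ m0.ne' (π (toR g)), hw]
      exact (isCone_cone _).smul _ (inv_nonneg.2 m0.le) _
        (ef_cone (b.lb.ne w ((b.lb.nefr w).1 a)).2)
  · rw [h.adj]
    refine cone_nonneg (fun a ha => ?_) (pc_mem h hc)
    rw [ip_toR]
    exact_mod_cast (b.nc.hpos a ha).le
  · have a := h.sq (toR Λ.h)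
    rw [e, ip_zero_left, ip_toR] at a
    exact b.lb.hh.not_ge (by exact_mod_cast a)

end Pool.Agent.MP_20d318_ag.AC
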