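import Pool.Agent.MP_20d318_ag.AC.LSpec

/-! One more curve in the projection of Zariski. -/

set_option autoImplicit false
set_option linter.unusedSectionVars false

namespace Pool.Agent.MP_20d318_ag.AC

open Pool.Agent.MP_20d318_ag.CB
open Pool.Agent.MP_20d318_ag.CC (B0 C0 Gp GR)
open Pool.Agent.MP_20d318_ag.Lat (cone IsCone isCone_cone subset_cone)

theorem zs_stmt : ZsStmt := by
  intro ι κ _ _ Λ b A π S c hc hcA hD
  obtain ⟨d, hd⟩ : ∃ d, d = π (toR c) := ⟨_, rfl⟩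
  rw [← hd] at hD ⊢
  have kill : ∀ s ∈ Submodule.span ℝ (toR '' A), π s = 0 := fun s hs =>
    (Submodule.span_le (p := LinearMap.ker π)).2 (by
      rintro _ ⟨a, ha, rfl⟩
      exact S.zero a ha) hs
  have pd : π d = d := by
    have := kill _ (S.spn (toR c))
    rwa [map_sub, sub_eq_zero, ← hd] at this
  have pvd : ∀ v, ip Λ.B (π v) d = ip Λ.B v d := fun v => by rw [S.adj, pd]
  have cd : ip Λ.B (toR c) d = ip Λ.B d d := by rw [← pvd, ← hd]
  have cm := ip_comm (R := ℝ) b.nc.sym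
  have D0 := hD.ne
  have up : d - toR c ∈ cone (toR '' A) := hd ▸ S.up c hc.1 hcA
  have sb : toR '' A ⊆ toR '' insert c A := Set.image_mono (Set.subset_insert _ _)
  have mc : toR c ∈ toR '' insert c A := Set.mem_image_of_mem _ (Set.mem_insert _ _)
  obtain ⟨π', e⟩ : ∃ π' : (ι → ℝ) →ₗ[ℝ] ι → ℝ, ∀ v,
      π' v = π v - (ip Λ.B v d / ip Λ.B d d) • d :=
    ⟨π - ((ip Λ.B d d)⁻¹ • MP_fd6584_ag.MV.ipL Λ.B d).smulRight d, fun v => by
      rw [div_eq_inv_mul]; rfl⟩
  refine ⟨π', ⟨Set.insert_subset hc S.sub, fun u v => ?_, fun a ha => ?_, fun v => ?_,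
    fun c' h1 h2 => ?_, fun v => ?_, ?_⟩, e⟩
  · rw [e, e, ip_sub_left, ip_sub_right, ip_smul_left, ip_smul_right, S.adj, cm d v]
    ring
  · rcases ha with rfl | ha
    · rw [e, cd, div_self D0, one_smul, ← hd, sub_self]
    · rw [e, ← pvd, S.zero a ha, ip_zero_left, zero_div, zero_smul, sub_self]
  · rw [e, sub_right_comm]
    refine Submodule.sub_mem _ (Submodule.span_mono sb (S.spn v)) (Submodule.smul_mem _ _ ?_)
    rw [← sub_add_cancel d (toR c)]
    exact Submodule.add_mem _ (Submodule.span_mono sb (hd ▸ S.spn (toR c)))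
      (Submodule.subset_span mc)
  · have n1 : c' ≠ c := fun k => h2 (Or.inl k)
    have n2 : c' ∉ A := fun k => h2 (Or.inr k)
    have p1 : ∀ a ∈ Λ.P, a ≠ c' → 0 ≤ ip Λ.B (toR a) (toR c') := fun a ha k => by
      rw [ip_toR]
      exact_mod_cast b.nc.pos a ha c' h1 k
    have p2 : 0 ≤ ip Λ.B (d - toR c) (toR c') :=
      (Lat.isCone_half (MP_fd6584_ag.MV.ipL Λ.B (toR c'))).cone_subset (by
        rintro _ ⟨a, ha, rfl⟩
        exact p1 a (S.sub ha).1 fun k => n2 (k ▸ ha)) up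
    have p3 : 0 ≤ ip Λ.B (toR c') d := by
      rw [ip_sub_left] at p2
      rw [cm]
      linarith [p1 c hc.1 n1.symm]
    rw [e, sub_right_comm, sub_eq_add_neg (π (toR c') - toR c'), ← neg_smul]
    refine (isCone_cone _).add _ (Lat.cone_mono sb (S.up c' h1 n2)) _ ((isCone_cone _).smul _
      (neg_nonneg.2 (div_nonpos_of_nonneg_of_nonpos p3 hD.le)) _ ?_)
    rw [← sub_add_cancel d (toR c)]
    exact (isCone_cone _).add _ (Lat.cone_mono sb up) _ (subset_cone _ mc)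
  · refine (S.sq v).trans ?_
    rw [e, ip_sub_left, ip_sub_right, ip_sub_right, ip_smul_left, ip_smul_left, ip_smul_right,
      ip_smul_right, cm d (π v), pvd, div_mul_cancel₀ _ D0]
    have := div_nonpos_of_nonneg_of_nonpos (mul_self_nonneg (ip Λ.B v d)) hD.le
    rw [mul_div_right_comm] at this
    linarith
  · obtain ⟨m, m0, hm⟩ := S.rat
    obtain ⟨u, hu⟩ := hm c
    rw [← hd] at hu
    have m1 : (0 : ℝ) < m := by exact_mod_cast m0
    have U : ((ip Λ.B u u : ℤ) : ℝ) = m * (m * ip Λ.B d d) := by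
      rw [← ip_toR, ← hu, ip_smul_left, ip_smul_right]
    have U0 : ip Λ.B u u < 0 := by
      have : ((ip Λ.B u u : ℤ) : ℝ) < 0 := U ▸ mul_neg_of_pos_of_neg m1 (mul_neg_of_pos_of_neg m1 hD)
      exact_mod_cast this
    obtain ⟨n, hn⟩ := Int.eq_ofNat_of_zero_le (neg_nonneg.2 U0.le)
    have n1 : (n : ℝ) = -(m * (m * ip Λ.B d d)) := by
      rw [← U, ← Int.cast_neg, hn, Int.cast_natCast]
    refine ⟨n * m, Nat.mul_pos (by omega) m0, fun v => ?_⟩
    obtain ⟨w, hw⟩ := hm v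
    refine ⟨n • w + (m * ip Λ.B v u) • u, ?_⟩
    rw [toR_add, toR_nsmul, toR_zsmul, Int.cast_mul, ← ip_toR, ← hw, ← hu, ip_smul_right, e,
      smul_sub, smul_smul, smul_smul, smul_smul, Nat.cast_mul, sub_eq_add_neg, ← neg_smul, n1]
    congr 2
    push_cast
    field_simp

end Pool.Agent.MP_20d318_ag.AC
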