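import Pool.Agent.MP_20d318_ag.AM.K8
import Pool.Agent.MP_20d318_ag.AC.Surf
import Pool.Agent.MP_20d318_ag.AC.Zs
import Pool.Agent.MP_20d318_ag.AC.Zar
import Pool.Agent.MP_20d318_ag.AC.Cov
import Pool.Agent.MP_20d318_ag.AC.Fin
import Pool.Agent.MP_20d318_ag.AC.Fp
import Pool.Agent.MP_20d318_ag.AC.Cut
import Pool.Agent.MP_20d318_ag.AC.Cvn

/-! A surface with a smooth bi-anticanonical curve as a level, whether the curve moves or not. -/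

section

set_option autoImplicit false

namespace Pool.Agent.MP_20d318_ag.CC

open Pool.Agent.MP_20d318_ag.CB Pool.Agent.MP_20d318_ag.CB.P
open Pool.Agent.MP_fd6584_ag.Fn Pool.Agent.CBk MvPolynomial
open Pool.Agent.MP_fd6584_ag.AG hiding deg_inv deg_congr deg_of_unit deg_mul deg_prod deg_zpow
  deg_eq_zero deg_nonneg deg_div deg_pow
open Pool.Agent.MP_20d318_ag.RS (jac)
open scoped IntermediateField

open Pa Classical in
theorem pay {k M I : Type} [Field k] [NeZero (2 : k)] [IsAlgClosed k] [Field M]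
    [Algebra k M] [Fintype I] (S : Sd k M I) (D₁ D₂ : Derivation k M M) (φ : M) (hS : SAll S)
    (reg : ∀ O ∈ S.T, ∀ a ∈ O, ∀ b ∈ O, φ * jac D₁ D₂ a b ^ 2 ∈ O)
    (smo : ∀ O ∈ S.T, ∃ a ∈ O, ∃ b ∈ O, φ * jac D₁ D₂ a b ^ 2 ∉ mx2 O) (hK : S.K ≠ 0) :
    ∃ (κ : Type) (_ : Fintype κ) (p : Pd k M I κ),
      p.toSd = S ∧ p.D₁ = D₁ ∧ p.D₂ = D₂ ∧ p.φ = φ ∧ PairA p := by
  obtain ⟨w, hw⟩ := hS.s.can D₁ D₂
  have a1 := hS.a1
  have a2 := hS.a2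
  have hL : ∀ O ∈ S.T, ∀ c, S.lb c O ≠ 0 := fun O hO c => S.lb_ne (a1.gne O hO) c
  have hL2 : ∀ O, S.lb ((-2 : ℤ) • S.K) O = S.lb (-S.K) O ^ 2 := fun O => by
    rw [show (-2 : ℤ) • S.K = (2 : ℤ) • (-S.K) by simp, S.lb_zsmul, zpow_ofNat]
  have hreg : ∀ χ : M, (∀ O ∈ S.T, ∀ a ∈ O, ∀ b ∈ O, χ * jac D₁ D₂ a b ^ 2 ∈ O) →
      ∀ O ∈ S.T, χ * w ^ 2 * S.lb ((-2 : ℤ) • S.K) O ∈ O := by
    intro χ h O hO
    obtain ⟨a, b, u, h1, h2, h3⟩ := hw O hO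
    have h4 := (h2.pow 2).div_mem (h O hO a (cht_mem h1).1 b (cht_mem h1).2)
    have h5 := h2.1
    rwa [h3, show χ * (u * w * S.lb (-S.K) O) ^ 2 / u ^ 2 = χ * w ^ 2 * S.lb (-S.K) O ^ 2 by
      field_simp, ← hL2] at h4
  have hsm : ∀ O ∈ S.T, φ * w ^ 2 * S.lb ((-2 : ℤ) • S.K) O ∉ mx2 O := by
    intro O hO h
    obtain ⟨a, b, u, h1, h2, h3⟩ := hw O hO
    obtain ⟨c, hc, d, hd, h4⟩ := smo O hO
    obtain ⟨J, hJ, h5⟩ := hS.jc.jacM O a b h1 c hc d hd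
    refine h4 ?_
    have := mx2_mul (O.pow_mem (O.mul_mem hJ h2.mem) 2) h
    rwa [hL2, show (J * u) ^ 2 * (φ * w ^ 2 * S.lb (-S.K) O ^ 2) =
      φ * (J * (u * w * S.lb (-S.K) O)) ^ 2 by ring, ← h3, ← h5] at this
  have htop : ⊤ ∈ S.T := a1.nice.toFine.top
  have hne : φ * w ^ 2 ≠ 0 := fun h => hsm ⊤ htop (by rw [h, zero_mul]; exact (mx2 ⊤).zero_mem)
  have hφ : φ ≠ 0 := left_ne_zero_of_mul hne
  have hw0 : w ≠ 0 := fun h => hne (by simp [h])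
  have hch : ∀ O ∈ S.T, ∀ a b, Cht O a b → IsU O (jac D₁ D₂ a b / (w * S.lb (-S.K) O)) := by
    intro O hO c d h
    obtain ⟨a, b, u, h1, h2, h3⟩ := hw O hO
    obtain ⟨v, h4, h5⟩ := hS.jc.jacU O a b c d h1 h
    have h6 := hL O hO (-S.K)
    rw [h5, h3, show v * (u * w * S.lb (-S.K) O) / (w * S.lb (-S.K) O) = v * u by field_simp]
    exact h4.mul h2
  have hcart := a1.pcart ((-2 : ℤ) • S.K) _ hne
  obtain ⟨s, hs⟩ : ∃ s : Finset (Place k M), ∀ P, P ∈ s ↔ plO P ∈ S.T ∧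
      P.ord (φ * w ^ 2 * S.lb ((-2 : ℤ) • S.K) (plO P)) ≠ 0 :=
    ⟨(a1.nice.toFine.fin_cart hcart).toFinset, fun P => by simp⟩
  have hord : ∀ P : Place k M, plO P ∈ S.T →
      P.ord (φ * w ^ 2 * S.lb ((-2 : ℤ) • S.K) (plO P)) = if P ∈ s then 1 else 0 := by
    intro P hP
    have h1 := mem_plO_ord.1 (hreg φ reg _ hP)
    have h2 : ¬ 2 ≤ P.ord (φ * w ^ 2 * S.lb ((-2 : ℤ) • S.K) (plO P)) := fun h =>
      hsm _ hP (mem_mx2 (mul_ne_zero hne (hL _ hP _)) h)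
    have h3 := hs P
    split_ifs with h
    · have := (h3.1 h).2
      omega
    · by_contra h4
      exact h (h3.2 ⟨hP, h4⟩)
  have hnon : s.Nonempty := by
    rw [Finset.nonempty_iff_ne_empty]
    rintro rfl
    have h0 := a1.zero _ _ fun O hO =>
      a1.nice.unit hcart hO fun P hP _ => by simpa using hord P hP
    exact hK ((smul_eq_zero.1 h0).resolve_left (by norm_num))
  choose ψ hψ using fun i : s => a2.cl i.1 ((hs i.1).1 i.2).1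
  have hsum : ∑ i : s, S.cl i.1 = (-2 : ℤ) • S.K := by
    rw [a2.dv ((-2 : ℤ) • S.K) _ s hne (fun P hP => ((hs P).1 hP).1)
      (fun P hP h => by rw [hord P hP, if_neg h]), Finset.sum_coe_sort s S.cl]
    refine Finset.sum_congr rfl fun P hP => ?_
    rw [hord P ((hs P).1 hP).1, if_pos hP, one_smul]
  have hψ0 : ∏ i, ψ i ≠ 0 := Finset.prod_ne_zero_iff.2 fun i _ => (hψ i).1
  have hprod : ∀ O ∈ S.T, ∏ i, ψ i * S.lb (S.cl i.1) O =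
      (∏ i, ψ i) * S.lb ((-2 : ℤ) • S.K) O := fun O hO => by
    rw [Finset.prod_mul_distrib, ← S.lb_sum (a1.gne O hO), hsum]
  obtain ⟨e, he⟩ := a2.const (φ * w ^ 2 / ∏ i, ψ i) fun O hO => by
    have h1 := a1.nice.unit_div hcart (a1.pcart ((-2 : ℤ) • S.K) _ hψ0) hO fun P hP => by
      rw [hord P hP, ← hprod _ hP,
        P.ord_prod _ _ fun i _ => mul_ne_zero (hψ i).1 (hL _ hP _)]
      simp only [(hψ _).2.2 P hP]
      rw [Finset.sum_coe_sort s fun Q => if P = Q then (1 : ℤ) else 0, Finset.sum_ite_eq]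
    rw [mul_div_mul_right _ _ (hL O hO _)] at h1
    exact h1.mem
  obtain ⟨ε, rfl⟩ := IsAlgClosed.exists_eq_mul_self e
  have hε : ε ≠ 0 := fun h => div_ne_zero hne hψ0 (by rw [he, h, zero_mul, map_zero])
  have hε' : algebraMap k M ε ≠ 0 := (map_ne_zero _).2 hε
  have hω : w / algebraMap k M ε ≠ 0 := div_ne_zero hw0 hε'
  obtain ⟨x, y, hxy⟩ := a1.chart ⊤ htop
  obtain ⟨c', ⟨U, hU1, hU2, hU3⟩, ⟨U', hU1', hU2', hU3'⟩⟩ := hS.s.dif (-S.K)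
  have hc : (φ * (w / algebraMap k M ε))⁻¹ ≠ 0 := inv_ne_zero (mul_ne_zero hφ hω)
  refine ⟨s, inferInstance,
    { toSd := S, D₁ := D₁, D₂ := D₂, φ := φ, ω := w / algebraMap k M ε, ψ := ψ,
      C := fun i => S.cl i.1, k0 := ⟨_, hnon.choose_spec⟩, x := x, y := y, U := U,
      U' := (fun a => (φ * (w / algebraMap k M ε))⁻¹ * a) '' U' }, rfl, rfl, rfl, rfl,
    hS, hxy.1, (div_ne_zero_iff.1 (hch ⊤ htop x y hxy).1).1, hφ, hω, reg, smo, ?_,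
    fun i => ⟨i.1, hψ i⟩, ?_, hsum, hU1, hU1'.image _, hU2, ?_,
    fun O hO => gn_spec (hU3 O hO).prin, ?_⟩
  · intro O hO a b h
    have h1 := (hch O hO a b h).mul (isU_const hε)
    have h2 := hL O hO (-S.K)
    change IsU O (jac D₁ D₂ a b / (w / algebraMap k M ε * S.lb (-S.K) O))
    rwa [show jac D₁ D₂ a b / (w / algebraMap k M ε * S.lb (-S.K) O) =
      jac D₁ D₂ a b / (w * S.lb (-S.K) O) * algebraMap k M ε by field_simp]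
  · intro O hO
    change φ * (w / algebraMap k M ε * S.lb (-S.K) O) ^ 2 = ∏ i, ψ i * S.lb (S.cl i.1) O
    rw [div_eq_iff hψ0, map_mul] at he
    rw [hprod O hO, hL2, mul_pow, div_pow, ← mul_assoc, ← mul_div_assoc, he]
    field_simp
  · rintro _ ⟨a, ha, rfl⟩
    exact mul_ne_zero hc (hU2' a ha)
  · intro O hO
    refine ((hU3' O hO).smul hc).of_unit ?_
    have h1 := (gn_spec (hU3 O hO).prin).unit (hU3 O hO)
    have h2 := hL O hO (-S.K)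
    have h3 := hL O hO c'
    change IsU O (gn U O / (φ * (w / algebraMap k M ε * S.lb (-S.K) O)) / _)
    rwa [S.lb_add (a1.gne O hO), show gn U O / (φ * (w / algebraMap k M ε * S.lb (-S.K) O)) /
      ((φ * (w / algebraMap k M ε))⁻¹ * (S.lb c' O * S.lb (-S.K) O)⁻¹) =
        gn U O / (S.lb c' O)⁻¹ by field_simp]

end Pool.Agent.MP_20d318_ag.CC

end

section

set_option autoImplicit false
set_option linter.unusedSectionVars false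

namespace Pool.Agent.MP_20d318_ag.AM.Cb

open Pool.Agent.MP_fd6584_ag Pool.Agent.MP_fd6584_ag.AG Pool.Agent.CBk
open Pool.Agent.MVg (Two gm)
open Pool.Agent.MP_20d318_ag.CH (Lv Ok lv0)
open Pool.Agent.MP_20d318_ag.KK
open Pool.Agent.MP_20d318_ag.CB
open Pool.Agent.MP_20d318_ag.CB.P (Pd Pair0 Pair Sg)

theorem ctr {ι κ : Type} [Fintype ι] [Fintype κ] {Λ : Ld ι κ} (b : CC.B0 Λ) (c : CC.C0 Λ) :
    Ctr Λ := fun L hL => c.ct L fun x hx h0 => hL x ⟨hx, by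
  rcases b.lb.neg x hx h0 with ⟨i, rfl⟩ | ⟨-, a, d⟩ | ⟨-, a, d, -⟩
  · rw [b.nc.m4, b.lb.KC]; norm_num
  · rw [a, d]; norm_num
  · rw [a, d]; norm_num⟩

theorem efb {ι κ : Type} [Fintype ι] [Fintype κ] {Λ : Ld ι κ} (b : CC.B0 Λ) {N : ℕ}
    {ε : ℕ → ι → ℤ} (st : CC.ST Λ.B Λ.K Λ.P N ε) {G : Set (Matrix ι ι ℤ)} (a : CC.AD Λ G) :
    Efb Λ {ρ | ρ ∈ G ∧ ∀ i, act ρ (Λ.C i) = Λ.C i} := by
  have l := bmods.b.l
  have c0 := l.c0' b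
  have gr := l.gr ι κ Λ G b a.gp
  have sub : {ρ | ρ ∈ G ∧ ∀ i, act ρ (Λ.C i) = Λ.C i} ⊆ G := fun _ h => h.1
  have cv := AC.cvn_stmt AC.cut_stmt l.rad ι κ Λ G _ b c0 (l.ll ι κ Λ b) gr sub
    (l.en2 ι κ Λ G b a.gp gr (l.cvg b st a))
  have z := AC.zar_stmt ι κ Λ b c0 (AC.zs_stmt ι κ Λ b)
  refine ⟨AC.fin_stmt AC.cut_stmt ι κ Λ G b a.gp gr z ?_,
    AC.cov_stmt ι κ Λ G _ b a.gp gr sub z (AC.fp_stmt ι κ Λ b) cv⟩
  obtain ⟨V, v1, v2, v3⟩ := cv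
  exact ⟨V, v1, v2, fun L h1 h2 => (v3 L h1 h2).imp fun ρ q => ⟨q.1.1, q.2⟩⟩

variable {k M : Type} [Field k] [NeZero (2 : k)] [IsAlgClosed k] [Field M] [Algebra k M]

theorem fg {I κ : Type} [Fintype I] [Fintype κ] {p : Pd k M I κ} (h : Pair0 p) (l : CC.B0 p.ld)
    (t : CC.TA p.toSd) : Fgb p := by
  have g := bge_stmt I κ _ l
  have c := big_stmt sol_stmt I κ _ l g (ctr l (bmods.b.l.c0' l))
  have a := sea_stmt k M I κ p h l t (stb_stmt I κ _ l c (chn_stmt I κ _ l (cla_stmt I κ _ l)))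
    (rsa_stmt k M I κ p h l t)
  exact fgb_stmt sol_stmt cpt_stmt k M I κ p h l t fun y hy => (l.lb.ne y hy).1.lt_or_eq.elim
    (fun q => sem_stmt k M I κ p h l t c a y ⟨hy, q⟩) fun q => sqz_stmt k M I κ p h l t y hy q.symm

/-- The two cases. -/
theorem p1 {T : Set (Subalgebra k M)} {D₁ D₂ : Derivation k M M} {φ : M}
    (hT : RS.Tower T) (h1 : RS.BiAnti T D₁ D₂ φ) (h2 : RS.SmoothZero T D₁ D₂ φ) :
    ∃ (Λ κ : Type) (_ : Finite Λ) (_ : Fintype κ) (L : Lv k M Λ κ 0), L.Y = T ∧ L.φ = φ ∧ Ok L ∧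
      (FiniteDimensional ℝ (N1 L.Y) ∧ MD L) ∧ (TwoComp T D₁ D₂ φ → Two κ) := by
  classical
  obtain ⟨I, _, S, N, ε, rfl, hS, st⟩ := bmods.b.g.st k M T hT
  obtain ⟨κ, _, p₀, rfl, rfl, rfl, rfl, hp₀⟩ :=
    CC.pay S D₁ D₂ φ (CB.P.sAll hS) h1 h2 (CC.K_ne st)
  have hp₁ : Pair0 p₀ := ⟨hp₀, CB.P.pb_stmt plane_stmt k M I κ p₀ hp₀⟩
  have two := (gm.two k M I κ p₀ hp₁).1
  rcases bmods.b.g.pcx k M I κ p₀ hp₁ with ⟨i, hp⟩ | h4
  · generalize ep : ({ p₀ with k0 := i } : Pd k M I κ) = p at hp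
    have ta := bmods.b.g.ta k M I _ hp.all
    obtain ⟨ψ, a1, a2⟩ := bmods.b.iso k M I κ p {ρ | ∃ σ, Sg p σ ρ} hp.toPair0 fun _ h => h
    have la := MVg.la hp
    refine ⟨_, κ, inferInstance, _, lv0 p, ep ▸ rfl, ep ▸ rfl,
      mods.c.ok (bmods.b.bs0 mods.c.der k M I κ p hp.toPair0 ta), ⟨ψ.finiteDimensional,
        sm.b.bse sm.b.sol k M I κ p hp la ta _ ψ a1 a2 (sm.b.efb gm.lm I κ _ _ la
          (gm.s1l gm.avp k M I κ p hp (gm.s1 gm.h0 k M I κ p hp)) ⟨_, MVg.sg_one hp⟩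
          (fun ρ ⟨σ, a⟩ => gm.iso k M I κ p σ ρ hp a) fun hF => ?_)
          (sm.b.fg gm.lm hp la ta (N := N) (ε := ε) (ep ▸ st))⟩, two⟩
    obtain ⟨N, a, b⟩ := CB.P.trans_stmt k M I κ p hp.toPair0 hF (hp.hz.two hF) (hp.hasInv hF)
    exact ⟨N, a, fun x hx' => let ⟨σ, ρ, c, d⟩ := b x hx'; ⟨ρ, ⟨σ, c⟩, d⟩⟩
  · have c := bmods.b.g.cob bmods.b.l hp₁ h4
    obtain ⟨ψ, a1, a2⟩ := bmods.b.iso k M I κ p₀
      {ρ | ρ ∈ CC.GG p₀ ∧ ∀ i, act ρ (p₀.ld.C i) = p₀.ld.C i} hp₁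
      fun ρ hρ => (bmods.b.g.grp k M I κ p₀ c).sg ρ hρ.1 hρ.2
    exact ⟨_, κ, inferInstance, _, lv0 p₀, rfl, rfl,
      mods.c.ok (bmods.b.bs0 mods.c.der k M I κ p₀ hp₁ c.ta), ⟨ψ.finiteDimensional,
        bse_stmt sol_stmt k M I κ p₀ hp₁ c.b0 c.ta _ ψ a1 a2 (efb c.b0 st (bmods.b.g.ad c))
          (fg hp₁ c.b0 c.ta)⟩, two⟩

end Pool.Agent.MP_20d318_ag.AM.Cb

end
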