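import Pool.Agent.MP_20d318_ag.CC.En3
import Pool.Agent.MP_fd6584_ag.MV.LSpec

/-! The effective cone of a surface whose curve is a union of curves of square `-4`: statements. -/

set_option autoImplicit false
set_option linter.unusedSectionVars false

namespace Pool.Agent.MP_20d318_ag.AC

open Pool.Agent.MP_20d318_ag.CB
open Pool.Agent.MP_20d318_ag.CC (B0 C0 Gp GR)
open Pool.Agent.MP_20d318_ag.Lat (cone IsCone isCone_cone subset_cone)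

section tools

variable {N : Type} [AddCommGroup N] [Module ℝ N]

theorem exists_fin {R : Set N} {x : N} (h : x ∈ cone R) :
    ∃ Q : Finset N, (Q : Set N) ⊆ R ∧ x ∈ cone (Q : Set N) :=
  Submodule.mem_span_finite_of_mem_span h

theorem mem_cone_fin {R : Finset N} {x : N} :
    x ∈ cone (R : Set N) ↔ ∃ c : N → ℝ, (∀ r, 0 ≤ c r) ∧ x = ∑ r ∈ R, c r • r := by
  refine ⟨fun h => ?_, ?_⟩
  · obtain ⟨c, -, rfl⟩ := Submodule.mem_span_finset.1 h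
    exact ⟨fun r => c r, fun r => (c r).2, rfl⟩
  · rintro ⟨c, h, rfl⟩
    exact (isCone_cone _).sum_mem _ _ fun r hr =>
      (isCone_cone _).smul _ (h r) _ (subset_cone _ hr)

end tools

variable {ι κ : Type} [Fintype ι] [Fintype κ] (Λ : Ld ι κ)

/-- The effective cone. -/
def EC : Set (ι → ℝ) := cone (toR '' Λ.P)

/-- The prime divisors of negative square. -/
def Ng : Set (ι → ℤ) := {c | c ∈ Λ.P ∧ ip Λ.B c c < 0}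

/-- The classes that are nonnegative on effective nef classes. -/
def PE : Set (ι → ℝ) := {x | ∀ L ∈ Λ.NT, L ∈ EC Λ → 0 ≤ ip Λ.B x L}

/-- The projection away from a negative definite family of prime divisors. -/
structure St (A : Set (ι → ℤ)) (π : (ι → ℝ) →ₗ[ℝ] ι → ℝ) : Prop where
  sub : A ⊆ Ng Λ
  adj : ∀ u v, ip Λ.B (π u) v = ip Λ.B u (π v)
  zero : ∀ c ∈ A, π (toR c) = 0
  spn : ∀ v, π v - v ∈ Submodule.span ℝ (toR '' A)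
  up : ∀ c ∈ Λ.P, c ∉ A → π (toR c) - toR c ∈ cone (toR '' A)
  sq : ∀ v, ip Λ.B v v ≤ ip Λ.B (π v) (π v)
  rat : ∃ m : ℕ, 0 < m ∧ ∀ v : ι → ℤ, ∃ w : ι → ℤ, (m : ℝ) • π (toR v) = toR w

/-- One more curve. -/
def Zs : Prop := ∀ A π, St Λ A π → ∀ c ∈ Ng Λ, c ∉ A → ip Λ.B (π (toR c)) (π (toR c)) < 0 →
  ∃ π', St Λ (insert c A) π' ∧ ∀ v, π' v = π v -
    (ip Λ.B v (π (toR c)) / ip Λ.B (π (toR c)) (π (toR c))) • π (toR c)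

/-- The decomposition of Zariski. -/
def Zar : Prop := ∀ x ∈ PE Λ, x ∈ EC Λ ∨ x ∈ Set.range toR →
  ∃ (A : Set (ι → ℤ)) (N H : ι → ℝ), A ⊆ Ng Λ ∧ x - N ∈ cone (toR '' A) ∧ N ∈ Λ.NT ∧ N ∈ EC Λ ∧
    H ∈ Λ.NT ∧ H ∈ EC Λ ∧ H ≠ 0 ∧ ∀ c ∈ A, ip Λ.B N (toR c) = 0 ∧ ip Λ.B H (toR c) = 0

/-- Finitely many negative curves are orthogonal to a nef class. -/
def Fp : Prop := ∀ v, Λ.Nef v → v ≠ 0 → {c | c ∈ Ng Λ ∧ ip Λ.B v c = 0}.Finite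

/-- A finite cone of nef classes meets all the orbits. -/
def Cv (G : Set (Matrix ι ι ℤ)) : Prop := ∃ V : Set (ι → ℤ), V.Finite ∧ (∀ v ∈ V, Λ.Nef v) ∧
  ∀ L ∈ Λ.NT, L ∈ EC Λ → ∃ ρ ∈ G, act ρ L ∈ cone (toR '' V)

/-- The effective classes over a finite cone. -/
def EFin : Prop := ∀ R : Set (ι → ℝ), R.Finite → R ⊆ cone (toR '' Λ.P) → ∃ T ⊆ Λ.P, T.Finite ∧
  cone (toR '' Λ.P) ∩ cone (R ∪ ((Set.range fun i => toR (Λ.C i)) ∪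
    Set.range fun i => -toR (Λ.C i))) ⊆ cone (toR '' T)

/-- A finite cone of prime divisors meets all the orbits. -/
def ECov (G : Set (Matrix ι ι ℤ)) : Prop :=
  ∃ T ⊆ Λ.P, T.Finite ∧ ∀ x ∈ cone (toR '' Λ.P), ∃ ρ ∈ G, act ρ x ∈ cone (toR '' T)

/-- CUT. -/
def CutStmt : Prop := ∀ (ι : Type) [Fintype ι] (B : ι → ι → ℤ) (R Y : Set (ι → ℤ)), R.Finite →
  (∀ r ∈ R, ∃ β : ℝ, ∀ y ∈ Y, -β ≤ ip B (toR r) (toR y)) → ∃ V : Set (ι → ℤ), V.Finite ∧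
    cone (toR '' V) = cone (toR '' R) ∩ {x | ∀ y ∈ Y, 0 ≤ ip B x (toR y)}

/-- ZS. -/
def ZsStmt : Prop := ∀ (ι κ : Type) [Fintype ι] [Fintype κ] (Λ : Ld ι κ), B0 Λ → Zs Λ

/-- ZAR. -/
def ZarStmt : Prop := ∀ (ι κ : Type) [Fintype ι] [Fintype κ] (Λ : Ld ι κ), B0 Λ → C0 Λ → Zs Λ →
  Zar Λ

/-- FP. -/
def FpStmt : Prop := ∀ (ι κ : Type) [Fintype ι] [Fintype κ] (Λ : Ld ι κ), B0 Λ → Fp Λ

/-- CVN. -/
def CvnStmt : Prop := CutStmt → CC.RadStmt → ∀ (ι κ : Type) [Fintype ι] [Fintype κ] (Λ : Ld ι κ)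
  (G G' : Set (Matrix ι ι ℤ)), B0 Λ → C0 Λ → CC.LL Λ → GR Λ G → G' ⊆ G → CC.CvG Λ G' → Cv Λ G'

/-- COV. -/
def CovStmt : Prop := ∀ (ι κ : Type) [Fintype ι] [Fintype κ] (Λ : Ld ι κ)
  (G G' : Set (Matrix ι ι ℤ)), B0 Λ → Gp Λ G → GR Λ G → G' ⊆ G → Zar Λ → Fp Λ → Cv Λ G' →
    ECov Λ G'

/-- FIN. -/
def FinStmt : Prop := CutStmt → ∀ (ι κ : Type) [Fintype ι] [Fintype κ] (Λ : Ld ι κ)
  (G : Set (Matrix ι ι ℤ)), B0 Λ → Gp Λ G → GR Λ G → Zar Λ → Cv Λ G → EFin Λ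

end Pool.Agent.MP_20d318_ag.AC
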