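import Pool.Agent.MP_20d318_ag.AC.Asm
import Pool.Agent.MP_20d318_ag.AC.Cob

/-! Every surface with a smooth bi-anticanonical curve is a level. -/

set_option autoImplicit false

namespace Pool.Agent.MP_20d318_ag.AC

open Pool.Agent.MP_fd6584_ag

variable {k : Type} [Field k] [NeZero (2 : k)] [IsAlgClosed k]

theorem p1 {M : Type} [Field M] [Algebra k M] {T : Set (Subalgebra k M)}
    {D₁ D₂ : Derivation k M M} {φ : M} (hT : RS.Tower T) (h1 : RS.BiAnti T D₁ D₂ φ)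
    (h2 : RS.SmoothZero T D₁ D₂ φ) : P1 T φ (TwoComp T D₁ D₂ φ) :=
  let ⟨a, b, c, d, L, e1, e2, e3, e4, e5⟩ := AM.Cb.p1 hT h1 h2
  ⟨a, b, c, d, L, e1, e2, e3, ⟨e4.1, e4.2⟩, e5⟩

variable (k) in
theorem exa : ∃ (M : Type) (_ : Field M) (_ : Algebra k M) (T : Set (Subalgebra k M))
    (D₁ D₂ : Derivation k M M) (φ : M), RS.Tower T ∧ RS.BiAnti T D₁ D₂ φ ∧
      RS.SmoothZero T D₁ D₂ φ ∧ TwoComp T D₁ D₂ φ :=
  let ⟨M, a, b, T, D₁, D₂, φ, _, h1, h2, h3, h4, _⟩ := MVg.exa_stmt MVg.two_stmt k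
  ⟨M, a, b, T, D₁, D₂, φ, h1, h2, h3, h4⟩

end Pool.Agent.MP_20d318_ag.AC
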